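import Pool.Agent.H541.PP.Cnt

/-!
# A second moment argument in a block of levels
-/

set_option autoImplicit false

namespace Pool.Agent.H541.PP

open Finset Filter

/-- a finite form of the Paley-Zygmund inequality -/
lemma pz (Ω : Finset ℕ) (f : ℕ → ℝ) (W t K : ℝ) (hf : ∀ a ∈ Ω, 0 ≤ f a)
    (ht : 0 ≤ t) (hK : 0 < K) (hΩ : (Ω.card : ℝ) ≤ W) (h2 : 2 * t * W ≤ ∑ a ∈ Ω, f a)
    (h3 : ∑ a ∈ Ω, f a ^ 2 ≤ K * ∑ a ∈ Ω, f a) :
    (∑ a ∈ Ω, f a) / (4 * K) ≤ ((Ω.filter (fun a => t ≤ f a)).card : ℝ) := by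
  set F := ∑ a ∈ Ω, f a with hF
  have hF0 : 0 ≤ F := Finset.sum_nonneg hf
  have h4 : ∑ a ∈ Ω.filter (fun a => ¬ t ≤ f a), f a ≤ t * W := by
    calc ∑ a ∈ Ω.filter (fun a => ¬ t ≤ f a), f a
        ≤ ∑ a ∈ Ω.filter (fun a => ¬ t ≤ f a), t := by
          apply Finset.sum_le_sum
          intro a ha
          rw [mem_filter] at ha
          exact (not_le.1 ha.2).le
      _ = ((Ω.filter (fun a => ¬ t ≤ f a)).card : ℝ) * t := by
          rw [Finset.sum_const, nsmul_eq_mul]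
      _ ≤ (Ω.card : ℝ) * t := by
          apply mul_le_mul_of_nonneg_right _ ht
          exact_mod_cast Finset.card_filter_le _ _
      _ ≤ W * t := mul_le_mul_of_nonneg_right hΩ ht
      _ = t * W := mul_comm _ _
  have h5 : ∑ a ∈ Ω.filter (fun a => t ≤ f a), f a +
      ∑ a ∈ Ω.filter (fun a => ¬ t ≤ f a), f a = F := Finset.sum_filter_add_sum_filter_not _ _ _
  set G := Ω.filter (fun a => t ≤ f a) with hG
  have h6 : F / 2 ≤ ∑ a ∈ G, f a := by linarith
  have h7 : (∑ a ∈ G, f a) ^ 2 ≤ (G.card : ℝ) * ∑ a ∈ G, f a ^ 2 := sq_sum_le_card_mul_sum_sq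
  have h8 : ∑ a ∈ G, f a ^ 2 ≤ K * F := by
    refine le_trans ?_ h3
    apply Finset.sum_le_sum_of_subset_of_nonneg (Finset.filter_subset _ _)
    intro a _ _
    positivity
  rcases hF0.eq_or_lt with h0 | h0
  · rw [← h0]; simp
  · rw [div_le_iff₀ (by positivity)]
    have h9 : (F / 2) ^ 2 ≤ (G.card : ℝ) * (K * F) := by
      calc (F / 2) ^ 2 ≤ (∑ a ∈ G, f a) ^ 2 := by
            apply pow_le_pow_left₀ (by positivity) h6
        _ ≤ (G.card : ℝ) * ∑ a ∈ G, f a ^ 2 := h7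
        _ ≤ (G.card : ℝ) * (K * F) := by
            apply mul_le_mul_of_nonneg_left h8 (by positivity)
    have h10 : F * F ≤ F * ((G.card : ℝ) * (4 * K)) := by nlinarith
    exact le_of_mul_le_mul_left h10 h0

/-- the second moment is controlled by ordered pairs -/
lemma second (Ω I : Finset ℕ) (u : ℕ → ℕ → ℝ) (K : ℝ) (hu : ∀ N a, 0 ≤ u N a)
    (h : ∀ M ∈ I, ∑ N ∈ I.filter (fun N => M ≤ N), ∑ a ∈ Ω, u M a * u N a ≤
      K / 2 * ∑ a ∈ Ω, u M a) :
    ∑ a ∈ Ω, (∑ N ∈ I, u N a) ^ 2 ≤ K * ∑ a ∈ Ω, ∑ N ∈ I, u N a := by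
  set g : ℕ → ℕ → ℝ := fun M N => ∑ a ∈ Ω, u M a * u N a with hg
  have hg0 : ∀ M N, 0 ≤ g M N := fun M N =>
    Finset.sum_nonneg (fun a _ => mul_nonneg (hu _ _) (hu _ _))
  have hsym : ∀ M N, g M N = g N M := by
    intro M N
    apply Finset.sum_congr rfl
    intro a _
    ring
  have e1 : ∑ a ∈ Ω, (∑ N ∈ I, u N a) ^ 2 = ∑ M ∈ I, ∑ N ∈ I, g M N := by
    calc ∑ a ∈ Ω, (∑ N ∈ I, u N a) ^ 2 = ∑ a ∈ Ω, ∑ M ∈ I, ∑ N ∈ I, u M a * u N a := by
          apply Finset.sum_congr rfl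
          intro a _
          rw [sq, Finset.sum_mul_sum]
      _ = ∑ M ∈ I, ∑ a ∈ Ω, ∑ N ∈ I, u M a * u N a := Finset.sum_comm
      _ = ∑ M ∈ I, ∑ N ∈ I, g M N := by
          apply Finset.sum_congr rfl
          intro M _
          rw [Finset.sum_comm]
  have e2 : ∑ M ∈ I, ∑ N ∈ I, g M N ≤
      2 * ∑ M ∈ I, ∑ N ∈ I.filter (fun N => M ≤ N), g M N := by
    have e3 : ∑ M ∈ I, ∑ N ∈ I, g M N ≤
        ∑ M ∈ I, ∑ N ∈ I, ((if M ≤ N then g M N else 0) + (if N ≤ M then g M N else 0)) := by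
      apply Finset.sum_le_sum
      intro M _
      apply Finset.sum_le_sum
      intro N _
      rcases le_total M N with hMN | hMN
      · rw [if_pos hMN]
        split_ifs
        · have := hg0 M N
          linarith
        · linarith
      · rw [if_pos hMN]
        split_ifs
        · have := hg0 M N
          linarith
        · linarith
    have e4 : ∑ M ∈ I, ∑ N ∈ I, ((if M ≤ N then g M N else 0) + (if N ≤ M then g M N else 0)) =
        ∑ M ∈ I, ∑ N ∈ I, (if M ≤ N then g M N else 0) +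
          ∑ M ∈ I, ∑ N ∈ I, (if N ≤ M then g M N else 0) := by
      simp only [Finset.sum_add_distrib]
    have e5 : ∑ M ∈ I, ∑ N ∈ I, (if N ≤ M then g M N else 0) =
        ∑ M ∈ I, ∑ N ∈ I, (if M ≤ N then g M N else 0) := by
      rw [Finset.sum_comm]
      apply Finset.sum_congr rfl
      intro M _
      apply Finset.sum_congr rfl
      intro N _
      rw [hsym N M]
    have e6 : ∑ M ∈ I, ∑ N ∈ I, (if M ≤ N then g M N else 0) =
        ∑ M ∈ I, ∑ N ∈ I.filter (fun N => M ≤ N), g M N := by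
      apply Finset.sum_congr rfl
      intro M _
      rw [Finset.sum_filter]
    rw [e4, e5, e6] at e3
    linarith
  have e7 : ∑ M ∈ I, ∑ N ∈ I.filter (fun N => M ≤ N), g M N ≤
      ∑ M ∈ I, K / 2 * ∑ a ∈ Ω, u M a := Finset.sum_le_sum h
  have e8 : ∑ M ∈ I, K / 2 * ∑ a ∈ Ω, u M a = K / 2 * ∑ a ∈ Ω, ∑ N ∈ I, u N a := by
    rw [← Finset.mul_sum, Finset.sum_comm]
  rw [e1]
  rw [e8] at e7
  linarith

lemma lead_ge {e d : ℕ} (hc : (d / 10 ^ (e - 1)).Coprime 10) : 10 ^ (e - 1) ≤ d := by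
  by_contra hcon
  push Not at hcon
  rw [Nat.div_eq_of_lt hcon] at hc
  norm_num at hc

open Classical in
/-- the indicator of the event that the mirror palindrome of the prefix with `N + 1` digits is
good -/
noncomputable def ind (m N a : ℕ) : ℝ := if Good N (a / 10 ^ (m - (N + 1))) then 1 else 0

open Classical in
lemma cardA {e m N d : ℕ} (h1 : e ≤ N + 1) (h2 : N + 1 ≤ m) :
    ∑ a ∈ Ico (d * 10 ^ (m - e)) ((d + 1) * 10 ^ (m - e)), ind m N a =
      (((Ico (d * 10 ^ (N + 1 - e)) ((d + 1) * 10 ^ (N + 1 - e))).filter (Good N)).card : ℝ) *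
        10 ^ (m - (N + 1)) := by
  have hs : 10 ^ (m - e) = 10 ^ (N + 1 - e) * 10 ^ (m - (N + 1)) := by
    rw [← pow_add]; congr 1; omega
  have h := fib1 (q := 10 ^ (m - (N + 1))) (by positivity) (d * 10 ^ (N + 1 - e))
    ((d + 1) * 10 ^ (N + 1 - e)) (Good N)
  rw [mul_assoc, mul_assoc, ← hs] at h
  unfold ind
  rw [Finset.sum_boole, h]
  push_cast
  ring

open Classical in
/-- the pair correlation bound -/
lemma pairB {C : ℝ} {L₀ : ℕ} (hC : 0 < C) (hL₀ : 1 ≤ L₀)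
    (hup : ∀ L M c : ℕ, L₀ ≤ L → 10 ^ M ≤ c → c < 10 ^ (M + 1) →
      (((Ico (c * 10 ^ (L + 1)) ((c + 1) * 10 ^ (L + 1))).filter
        (fun a => Rough 12 (M + L + 1) (mirror (M + L + 1) a))).card : ℝ) ≤
        C * 10 ^ L / (L : ℝ))
    {e m M N d : ℕ} (he : 1 ≤ e) (h1 : e ≤ M + 1) (hMN : M + L₀ < N) (h2 : N + 1 ≤ m)
    (hd : d < 10 ^ e) (hc : (d / 10 ^ (e - 1)).Coprime 10) :
    ∑ a ∈ Ico (d * 10 ^ (m - e)) ((d + 1) * 10 ^ (m - e)), ind m M a * ind m N a ≤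
      (∑ a ∈ Ico (d * 10 ^ (m - e)) ((d + 1) * 10 ^ (m - e)), ind m M a) *
        (C / (5 * ((N : ℝ) - (M : ℝ)))) := by
  obtain ⟨L, rfl⟩ : ∃ L, N = M + L + 1 := ⟨N - M - 1, by omega⟩
  have hL : L₀ ≤ L := by omega
  have hL1 : 1 ≤ L := by omega
  have hdlo := lead_ge hc
  have hs : 10 ^ (m - e) = 10 ^ (M + 1 - e) * 10 ^ (m - (M + 1)) := by
    rw [← pow_add]; congr 1; omega
  have hs2 : 10 ^ (m - (M + 1)) = 10 ^ (L + 1) * 10 ^ (m - (M + L + 1 + 1)) := by
    rw [← pow_add]; congr 1; omega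
  have hA := cardA (d := d) h1 (show M + 1 ≤ m by omega)
  set S := (Ico (d * 10 ^ (M + 1 - e)) ((d + 1) * 10 ^ (M + 1 - e))).filter (Good M) with hS
  have hsum : ∑ a ∈ Ico (d * 10 ^ (m - e)) ((d + 1) * 10 ^ (m - e)),
      ind m M a * ind m (M + L + 1) a ≤
      (S.card : ℝ) * (C * 10 ^ L / (L : ℝ) * 10 ^ (m - (M + L + 1 + 1))) := by
    have h := fib (q := 10 ^ (m - (M + 1))) (by positivity) (d * 10 ^ (M + 1 - e))
      ((d + 1) * 10 ^ (M + 1 - e)) (Good M)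
      (fun a => Good (M + L + 1) (a / 10 ^ (m - (M + L + 1 + 1))))
    rw [mul_assoc, mul_assoc, ← hs] at h
    have e1 : ∑ a ∈ Ico (d * 10 ^ (m - e)) ((d + 1) * 10 ^ (m - e)),
        ind m M a * ind m (M + L + 1) a =
        (((Ico (d * 10 ^ (m - e)) ((d + 1) * 10 ^ (m - e))).filter
          (fun a => Good M (a / 10 ^ (m - (M + 1))) ∧
            Good (M + L + 1) (a / 10 ^ (m - (M + L + 1 + 1))))).card : ℝ) := by
      rw [← Finset.sum_boole]
      apply Finset.sum_congr rfl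
      intro a _
      unfold ind
      by_cases hx : Good M (a / 10 ^ (m - (M + 1))) <;>
        by_cases hy : Good (M + L + 1) (a / 10 ^ (m - (M + L + 1 + 1))) <;> simp [hx, hy]
    rw [e1, h]
    push_cast
    calc ∑ c ∈ S, (((Ico (c * 10 ^ (m - (M + 1))) ((c + 1) * 10 ^ (m - (M + 1)))).filter
          (fun a => Good (M + L + 1) (a / 10 ^ (m - (M + L + 1 + 1))))).card : ℝ)
        ≤ ∑ c ∈ S, (C * 10 ^ L / (L : ℝ) * 10 ^ (m - (M + L + 1 + 1))) := by
          apply Finset.sum_le_sum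
          intro c hcS
          rw [hS, mem_filter, mem_Ico] at hcS
          have hc1 : 10 ^ M ≤ c := by
            calc 10 ^ M = 10 ^ (e - 1) * 10 ^ (M + 1 - e) := by
                  rw [← pow_add]; congr 1; omega
              _ ≤ d * 10 ^ (M + 1 - e) := Nat.mul_le_mul_right _ hdlo
              _ ≤ c := hcS.1.1
          have hc2 : c < 10 ^ (M + 1) := by
            calc c < (d + 1) * 10 ^ (M + 1 - e) := hcS.1.2
              _ ≤ 10 ^ e * 10 ^ (M + 1 - e) := Nat.mul_le_mul_right _ hd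
              _ = 10 ^ (M + 1) := by rw [← pow_add]; congr 1; omega
          have hb := hup L M c hL hc1 hc2
          have hf := fib1 (q := 10 ^ (m - (M + L + 1 + 1))) (by positivity) (c * 10 ^ (L + 1))
            ((c + 1) * 10 ^ (L + 1)) (Good (M + L + 1))
          rw [mul_assoc, mul_assoc, ← hs2] at hf
          rw [hf]
          push_cast
          apply mul_le_mul_of_nonneg_right _ (by positivity)
          refine le_trans ?_ hb
          norm_cast
          apply Finset.card_le_card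
          intro a ha
          rw [mem_filter] at ha ⊢
          exact ⟨ha.1, good_rough ha.2⟩
      _ = (S.card : ℝ) * (C * 10 ^ L / (L : ℝ) * 10 ^ (m - (M + L + 1 + 1))) := by
          rw [Finset.sum_const, nsmul_eq_mul]
  refine hsum.trans ?_
  rw [hA]
  have hs2' : (10 : ℝ) ^ (m - (M + 1)) = 10 ^ (L + 1) * 10 ^ (m - (M + L + 1 + 1)) := by
    exact_mod_cast hs2
  rw [hs2']
  have hLr : (1 : ℝ) ≤ (L : ℝ) := by exact_mod_cast hL1
  have e5 : (((M + L + 1 : ℕ) : ℝ) - (M : ℝ)) = (L : ℝ) + 1 := by push_cast; ring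
  rw [e5]
  have e6 : C * 10 ^ L / (L : ℝ) ≤ 10 ^ (L + 1) * (C / (5 * ((L : ℝ) + 1))) := by
    rw [pow_succ, mul_div_assoc', div_le_div_iff₀ (by positivity) (by positivity)]
    have : 0 < (10 : ℝ) ^ L * C := by positivity
    nlinarith
  calc (S.card : ℝ) * (C * 10 ^ L / (L : ℝ) * 10 ^ (m - (M + L + 1 + 1)))
      ≤ (S.card : ℝ) * ((10 ^ (L + 1) * (C / (5 * ((L : ℝ) + 1)))) *
          10 ^ (m - (M + L + 1 + 1))) := by
        apply mul_le_mul_of_nonneg_left _ (by positivity)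
        apply mul_le_mul_of_nonneg_right e6 (by positivity)
    _ = (S.card : ℝ) * (10 ^ (L + 1) * 10 ^ (m - (M + L + 1 + 1))) *
        (C / (5 * ((L : ℝ) + 1))) := by ring

end Pool.Agent.H541.PP
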