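import Pool.Agent.H541.PP.Blk

/-!
# The block theorem
-/

set_option autoImplicit false

namespace Pool.Agent.H541.PP

open Finset Filter

open Classical in
/-- the number of `N ∈ I` for which the prefix of `a` (an integer with `m` digits) with `N + 1`
digits has a good mirror palindrome -/
noncomputable def cnt (I : Finset ℕ) (m a : ℕ) : ℕ :=
  (I.filter (fun N => Good N (a / 10 ^ (m - (N + 1))))).card

lemma cnt_eq (I : Finset ℕ) (m a : ℕ) : (cnt I m a : ℝ) = ∑ N ∈ I, ind m N a := by
  classical
  unfold cnt ind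
  rw [Finset.sum_boole]

lemma ind_nonneg (m N a : ℕ) : 0 ≤ ind m N a := by
  unfold ind
  split_ifs <;> norm_num

lemma ind_mul_le (m M N a : ℕ) : ind m M a * ind m N a ≤ ind m M a := by
  unfold ind
  split_ifs <;> norm_num

open Classical in
/-- with positive conditional probability the number of good levels is of the order of its mean -/
theorem block : ∃ c₀ : ℝ, 0 < c₀ ∧ c₀ ≤ 1 ∧ ∃ k₀ : ℕ, ∀ k, k₀ ≤ k → ∀ e : ℕ, 1 ≤ e → 11 * e ≤ k →
    ∀ d < 10 ^ e, (d / 10 ^ (e - 1)).Coprime 10 → ∀ (m : ℕ) (I : Finset ℕ),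
      (∀ N ∈ I, k ≤ N ∧ N + 1 ≤ m) → ∀ H B : ℝ, 0 ≤ H → 0 ≤ B →
        H ≤ ∑ N ∈ I, 1 / (N : ℝ) →
        (∀ M ∈ I, ∑ N ∈ I.filter (fun N => M < N), 1 / ((N : ℝ) - (M : ℝ)) ≤ B) →
        c₀ * H / (1 + B) * 10 ^ (m - e) ≤
          (((Ico (d * 10 ^ (m - e)) ((d + 1) * 10 ^ (m - e))).filter
            (fun a => c₀ * H ≤ (cnt I m a : ℝ))).card : ℝ) := by
  obtain ⟨c, hc, N₀, hlow⟩ := lowG
  obtain ⟨C, hC, L₀, hL₀, hup⟩ := upR
  set K₁ : ℝ := 2 * ((L₀ : ℝ) + 1 + C) with hK₁
  have hK₁pos : 0 < K₁ := by positivity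
  set c₀ : ℝ := min 1 (min (c / 20) (c / (40 * K₁))) with hc₀
  have hc₀pos : 0 < c₀ := by
    rw [hc₀]
    refine lt_min one_pos (lt_min (by positivity) (by positivity))
  have hc₀1 : c₀ ≤ 1 := min_le_left _ _
  have hc₀2 : c₀ ≤ c / 20 := (min_le_right _ _).trans (min_le_left _ _)
  have hc₀3 : c₀ ≤ c / (40 * K₁) := (min_le_right _ _).trans (min_le_right _ _)
  refine ⟨c₀, hc₀pos, hc₀1, max N₀ 1, ?_⟩
  intro k hk e he hek d hd hcop m I hI H B hH hB hHI hBI
  have hkN : N₀ ≤ k := (le_max_left _ _).trans hk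
  have hk1 : 1 ≤ k := (le_max_right _ _).trans hk
  set Ω := Ico (d * 10 ^ (m - e)) ((d + 1) * 10 ^ (m - e)) with hΩ
  set W : ℝ := 10 ^ (m - e) with hW
  have hW0 : 0 < W := by positivity
  have hΩc : (Ω.card : ℝ) ≤ W := by
    rw [hΩ, Nat.card_Ico, Nat.add_mul, Nat.one_mul, Nat.add_sub_cancel_left]
    push_cast
    exact le_rfl
  -- first moment
  have hfirst : c / 10 * W * H ≤ ∑ a ∈ Ω, ∑ N ∈ I, ind m N a := by
    rw [Finset.sum_comm]
    calc c / 10 * W * H ≤ c / 10 * W * ∑ N ∈ I, 1 / (N : ℝ) := by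
          apply mul_le_mul_of_nonneg_left hHI (by positivity)
      _ = ∑ N ∈ I, c / 10 * W * (1 / (N : ℝ)) := by rw [Finset.mul_sum]
      _ ≤ ∑ N ∈ I, ∑ a ∈ Ω, ind m N a := by
          apply Finset.sum_le_sum
          intro N hN
          obtain ⟨hN1, hN2⟩ := hI N hN
          have hA := cardA (e := e) (m := m) (N := N) (d := d) (by omega) hN2
          rw [hΩ, hA]
          have hl := hlow N (hkN.trans hN1) e he (by omega) d hd hcop
          have hNpos : (0 : ℝ) < (N : ℝ) := by
            have : 0 < N := by omega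
            exact_mod_cast this
          have hWe : W = 10 * (10 ^ (N - e) * 10 ^ (m - (N + 1))) := by
            rw [hW, ← pow_add, ← pow_succ']
            congr 1
            omega
          calc c / 10 * W * (1 / (N : ℝ)) = c * 10 ^ (N - e) / (N : ℝ) * 10 ^ (m - (N + 1)) := by
                rw [hWe]; field_simp
            _ ≤ _ := mul_le_mul_of_nonneg_right hl (by positivity)
  -- second moment
  have hsec := second Ω I (ind m) (K₁ * (1 + B)) (fun N a => ind_nonneg m N a) (by
    intro M hM
    obtain ⟨hM1, hM2⟩ := hI M hM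
    set A := ∑ a ∈ Ω, ind m M a with hA
    have hA0 : 0 ≤ A := Finset.sum_nonneg (fun a _ => ind_nonneg m M a)
    have hpt : ∀ N ∈ I.filter (fun N => M ≤ N), ∑ a ∈ Ω, ind m M a * ind m N a ≤
        A * ((if N ≤ M + L₀ then (1 : ℝ) else 0) +
          (if M < N then C / (5 * ((N : ℝ) - (M : ℝ))) else 0)) := by
      intro N hN
      rw [mem_filter] at hN
      obtain ⟨hN1, hN2⟩ := hI N hN.1
      by_cases hcase : N ≤ M + L₀
      · rw [if_pos hcase]
        have h1 : ∑ a ∈ Ω, ind m M a * ind m N a ≤ A :=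
          Finset.sum_le_sum (fun a _ => ind_mul_le m M N a)
        have h2 : (0 : ℝ) ≤ (if M < N then C / (5 * ((N : ℝ) - (M : ℝ))) else 0) := by
          split_ifs with hlt
          · have : (0 : ℝ) < (N : ℝ) - (M : ℝ) := by
              rw [sub_pos]; exact_mod_cast hlt
            positivity
          · exact le_rfl
        nlinarith
      · rw [if_neg hcase]
        push Not at hcase
        have hlt : M < N := by omega
        rw [if_pos hlt, zero_add]
        exact pairB hC hL₀ hup he (by omega) hcase hN2 hd hcop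
    calc ∑ N ∈ I.filter (fun N => M ≤ N), ∑ a ∈ Ω, ind m M a * ind m N a
        ≤ ∑ N ∈ I.filter (fun N => M ≤ N), A * ((if N ≤ M + L₀ then (1 : ℝ) else 0) +
          (if M < N then C / (5 * ((N : ℝ) - (M : ℝ))) else 0)) := Finset.sum_le_sum hpt
      _ = A * (∑ N ∈ I.filter (fun N => M ≤ N), (if N ≤ M + L₀ then (1 : ℝ) else 0) +
          ∑ N ∈ I.filter (fun N => M ≤ N),
            (if M < N then C / (5 * ((N : ℝ) - (M : ℝ))) else 0)) := by
          rw [← Finset.mul_sum, Finset.sum_add_distrib]
      _ ≤ A * (((L₀ : ℝ) + 1) + C / 5 * B) := by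
          apply mul_le_mul_of_nonneg_left _ hA0
          apply add_le_add
          · rw [← Finset.sum_filter, Finset.sum_const, nsmul_eq_mul, mul_one]
            have : ((I.filter (fun N => M ≤ N)).filter (fun N => N ≤ M + L₀)).card ≤
                (Icc M (M + L₀)).card := by
              apply Finset.card_le_card
              intro N hN
              rw [mem_filter, mem_filter] at hN
              exact mem_Icc.2 ⟨hN.1.2, hN.2⟩
            rw [Nat.card_Icc] at this
            have h' : ((I.filter (fun N => M ≤ N)).filter (fun N => N ≤ M + L₀)).card ≤ L₀ + 1 := by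
              omega
            exact_mod_cast h'
          · rw [← Finset.sum_filter, Finset.filter_filter]
            have e1 : I.filter (fun N => M ≤ N ∧ M < N) = I.filter (fun N => M < N) := by
              apply Finset.filter_congr
              intro N _
              omega
            rw [e1]
            calc ∑ N ∈ I.filter (fun N => M < N), C / (5 * ((N : ℝ) - (M : ℝ)))
                = C / 5 * ∑ N ∈ I.filter (fun N => M < N), 1 / ((N : ℝ) - (M : ℝ)) := by
                  rw [Finset.mul_sum]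
                  apply Finset.sum_congr rfl
                  intro N _
                  rw [div_mul_div_comm, mul_one]
              _ ≤ C / 5 * B := mul_le_mul_of_nonneg_left (hBI M hM) (by positivity)
      _ ≤ K₁ * (1 + B) / 2 * A := by
          have h1 : ((L₀ : ℝ) + 1) + C / 5 * B ≤ K₁ * (1 + B) / 2 := by
            rw [hK₁]
            have hL' : (0 : ℝ) ≤ (L₀ : ℝ) := by positivity
            nlinarith [mul_nonneg hL' hB, mul_nonneg hC.le hB]
          nlinarith)
  have hpz := pz Ω (fun a => ∑ N ∈ I, ind m N a) W (c₀ * H) (K₁ * (1 + B))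
    (fun a _ => Finset.sum_nonneg (fun N _ => ind_nonneg m N a)) (by positivity) (by positivity)
    hΩc (by
      refine le_trans ?_ hfirst
      have : c₀ * (W * H) ≤ c / 20 * (W * H) :=
        mul_le_mul_of_nonneg_right hc₀2 (by positivity)
      linarith) hsec
  have hfin : c₀ * H / (1 + B) * W ≤
      (∑ a ∈ Ω, ∑ N ∈ I, ind m N a) / (4 * (K₁ * (1 + B))) := by
    have h1B : 0 < 1 + B := by positivity
    calc c₀ * H / (1 + B) * W ≤ c / (40 * K₁) * H / (1 + B) * W := by
          apply mul_le_mul_of_nonneg_right _ hW0.le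
          apply div_le_div_of_nonneg_right _ h1B.le
          exact mul_le_mul_of_nonneg_right hc₀3 hH
      _ = (c / 10 * W * H) / (4 * (K₁ * (1 + B))) := by field_simp; ring
      _ ≤ _ := div_le_div_of_nonneg_right hfirst (by positivity)
  refine (hfin.trans hpz).trans ?_
  norm_cast
  apply Finset.card_le_card
  intro a ha
  rw [mem_filter] at ha ⊢
  refine ⟨ha.1, ?_⟩
  rw [cnt_eq]
  exact ha.2

end Pool.Agent.H541.PP
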