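import Pool.Agent.H541.PP.Blk2

/-!
# Chains of blocks
-/

set_option autoImplicit false

namespace Pool.Agent.H541.PP

open Finset Filter

open Classical in
/-- the number of integers below `10 ^ m` with a property -/
noncomputable def num (m : ℕ) (P : ℕ → Prop) : ℝ := (((range (10 ^ m)).filter P).card : ℝ)

open Classical in
lemma step {m m' : ℕ} (hmm : m ≤ m') (Bd Bd' Q : ℕ → Prop) {ρ R : ℝ}
    (h1 : ∀ b, Bd' b → Bd (b / 10 ^ (m' - m)) ∧ Q b) (hρ : 0 ≤ ρ)
    (h2 : ∀ d < 10 ^ m, Bd d →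
      (((Ico (d * 10 ^ (m' - m)) ((d + 1) * 10 ^ (m' - m))).filter Q).card : ℝ) ≤
        ρ * 10 ^ (m' - m))
    (h3 : num m Bd ≤ R * 10 ^ m) : num m' Bd' ≤ R * ρ * 10 ^ m' := by
  unfold num at h3 ⊢
  have hpow : (10 : ℕ) ^ m' = 10 ^ m * 10 ^ (m' - m) := by rw [← pow_add]; congr 1; omega
  have hf := fib (q := 10 ^ (m' - m)) (by positivity) 0 (10 ^ m) Bd Q
  rw [Nat.zero_mul, ← hpow, Nat.Ico_zero_eq_range, Nat.Ico_zero_eq_range] at hf
  have hsub : ((range (10 ^ m')).filter Bd').card ≤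
      ((range (10 ^ m')).filter (fun a => Bd (a / 10 ^ (m' - m)) ∧ Q a)).card := by
    apply Finset.card_le_card
    intro b hb
    rw [mem_filter] at hb ⊢
    exact ⟨hb.1, h1 b hb.2⟩
  rw [hf] at hsub
  have hsub' : (((range (10 ^ m')).filter Bd').card : ℝ) ≤
      ∑ c ∈ (range (10 ^ m)).filter Bd,
        (((Ico (c * 10 ^ (m' - m)) ((c + 1) * 10 ^ (m' - m))).filter Q).card : ℝ) := by
    exact_mod_cast hsub
  refine hsub'.trans ?_
  calc ∑ c ∈ (range (10 ^ m)).filter Bd,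
        (((Ico (c * 10 ^ (m' - m)) ((c + 1) * 10 ^ (m' - m))).filter Q).card : ℝ)
      ≤ ∑ c ∈ (range (10 ^ m)).filter Bd, ρ * 10 ^ (m' - m) := by
        apply Finset.sum_le_sum
        intro c hc
        rw [mem_filter, mem_range] at hc
        exact h2 c hc.1 hc.2
    _ = (((range (10 ^ m)).filter Bd).card : ℝ) * (ρ * 10 ^ (m' - m)) := by
        rw [Finset.sum_const, nsmul_eq_mul]
    _ ≤ (R * 10 ^ m) * (ρ * 10 ^ (m' - m)) :=
        mul_le_mul_of_nonneg_right h3 (by positivity)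
    _ = R * ρ * 10 ^ m' := by
        have : (10 : ℝ) ^ m' = 10 ^ m * 10 ^ (m' - m) := by exact_mod_cast hpow
        rw [this]; ring

lemma cnt_mono {I J : Finset ℕ} (h : I ⊆ J) (m a : ℕ) : cnt I m a ≤ cnt J m a := by
  classical
  unfold cnt
  apply Finset.card_le_card
  intro N hN
  rw [mem_filter] at hN ⊢
  exact ⟨h hN.1, hN.2⟩

lemma cnt_level {I : Finset ℕ} {m m' : ℕ} (hmm : m ≤ m') (hI : ∀ N ∈ I, N + 1 ≤ m) (a : ℕ) :
    cnt I m (a / 10 ^ (m' - m)) = cnt I m' a := by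
  classical
  unfold cnt
  congr 1
  apply Finset.filter_congr
  intro N hN
  have := hI N hN
  rw [Nat.div_div_eq_div_mul, ← pow_add]
  have e : m' - m + (m - (N + 1)) = m' - (N + 1) := by omega
  rw [e]

/-- the leading digit of an integer with `m` digits is coprime to ten -/
def Lead (m b : ℕ) : Prop := (b / 10 ^ (m - 1)).Coprime 10

lemma lead_level {m m' : ℕ} (hm : 1 ≤ m) (hmm : m ≤ m') (b : ℕ) :
    Lead m (b / 10 ^ (m' - m)) ↔ Lead m' b := by
  unfold Lead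
  rw [Nat.div_div_eq_div_mul, ← pow_add]
  have e : m' - m + (m - 1) = m' - 1 := by omega
  rw [e]

open Classical in
/-- complement form of `block` -/
theorem block' : ∃ c₀ : ℝ, 0 < c₀ ∧ c₀ ≤ 1 ∧ ∃ k₀ : ℕ, ∀ k, k₀ ≤ k → ∀ e : ℕ, 1 ≤ e → 11 * e ≤ k →
    ∀ d < 10 ^ e, Lead e d → ∀ (m : ℕ) (I : Finset ℕ), e ≤ m →
      (∀ N ∈ I, k ≤ N ∧ N + 1 ≤ m) → ∀ H B : ℝ, 0 ≤ H → 0 ≤ B →
        H ≤ ∑ N ∈ I, 1 / (N : ℝ) →
        (∀ M ∈ I, ∑ N ∈ I.filter (fun N => M < N), 1 / ((N : ℝ) - (M : ℝ)) ≤ B) →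
          (((Ico (d * 10 ^ (m - e)) ((d + 1) * 10 ^ (m - e))).filter
            (fun a => (cnt I m a : ℝ) < c₀ * H)).card : ℝ) ≤
          (1 - c₀ * H / (1 + B)) * 10 ^ (m - e) := by
  obtain ⟨c₀, h0, h1, k₀, h⟩ := block
  refine ⟨c₀, h0, h1, k₀, ?_⟩
  intro k hk e he hek d hd hl m I hem hI H B hH hB hHI hBI
  have hb := h k hk e he hek d hd hl m I hI H B hH hB hHI hBI
  set Ω := Ico (d * 10 ^ (m - e)) ((d + 1) * 10 ^ (m - e)) with hΩ
  have hcard : Ω.card = 10 ^ (m - e) := by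
    rw [hΩ, Nat.card_Ico, Nat.add_mul, Nat.one_mul, Nat.add_sub_cancel_left]
  have hsplit := Finset.card_filter_add_card_filter_not (s := Ω)
    (fun a => c₀ * H ≤ (cnt I m a : ℝ))
  have hsplit' : ((Ω.filter (fun a => c₀ * H ≤ (cnt I m a : ℝ))).card : ℝ) +
      ((Ω.filter (fun a => ¬ c₀ * H ≤ (cnt I m a : ℝ))).card : ℝ) = 10 ^ (m - e) := by
    have : ((Ω.card : ℕ) : ℝ) = 10 ^ (m - e) := by rw [hcard]; push_cast; rfl
    rw [← this, ← hsplit]
    push_cast
    rfl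
  have e1 : Ω.filter (fun a => ¬ c₀ * H ≤ (cnt I m a : ℝ)) =
      Ω.filter (fun a => (cnt I m a : ℝ) < c₀ * H) := by
    apply Finset.filter_congr
    intro a _
    rw [not_le]
  rw [e1] at hsplit'
  linarith

/-- the harmonic sum over the elements of `𝒩` in `[1, K]` -/
noncomputable def harm (𝒩 : Set ℕ) (K : ℕ) : ℝ := by
  classical
  exact ∑ N ∈ (Icc 1 K).filter (fun N => N ∈ 𝒩), 1 / (N : ℝ)

open Classical in
lemma harm_def (𝒩 : Set ℕ) (K : ℕ) :
    harm 𝒩 K = ∑ N ∈ (Icc 1 K).filter (fun N => N ∈ 𝒩), 1 / (N : ℝ) := rfl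

open Classical in
/-- the elements of `𝒩` in `[1, K]` -/
noncomputable def upTo (𝒩 : Set ℕ) (K : ℕ) : Finset ℕ := (Icc 1 K).filter (fun N => N ∈ 𝒩)

open Classical in
/-- the chain for a general set of levels -/
theorem chainN : ∃ c : ℝ, 0 < c ∧ ∀ (𝒩 : Set ℕ) (B₀ : ℝ), 0 ≤ B₀ → Tendsto (harm 𝒩) atTop atTop →
    (∃ᶠ K in atTop, ∀ M : ℕ, M ∈ 𝒩 → ∑ N ∈ (upTo 𝒩 K).filter (fun N => M < N),
      1 / ((N : ℝ) - (M : ℝ)) ≤ B₀ * (1 + harm 𝒩 K)) →
    ∃ ρ : ℝ, 0 ≤ ρ ∧ ρ < 1 ∧ ∀ r k : ℕ, ∃ m : ℕ, 1 ≤ m ∧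
      num m (fun b => Lead m b ∧ ∀ K : ℕ, k ≤ K → K + 1 ≤ m →
        (cnt (upTo 𝒩 K) m b : ℝ) < c * harm 𝒩 K) ≤ ρ ^ r * 10 ^ m := by
  obtain ⟨c₀, h0, h1, k₀, hblock⟩ := block'
  refine ⟨c₀ / 2, by positivity, ?_⟩
  intro 𝒩 B₀ hB₀ hH hreg
  have hρ1 : c₀ / (2 * (1 + 2 * B₀)) ≤ 1 := by
    rw [div_le_one (by positivity)]
    linarith
  have hρ0 : 0 < c₀ / (2 * (1 + 2 * B₀)) := by positivity
  refine ⟨1 - c₀ / (2 * (1 + 2 * B₀)), by linarith, by linarith, ?_⟩
  set ρ := 1 - c₀ / (2 * (1 + 2 * B₀)) with hρ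
  intro r k
  induction r with
  | zero =>
    refine ⟨1, le_rfl, ?_⟩
    rw [pow_zero, one_mul]
    unfold num
    have := Finset.card_filter_le (range (10 ^ 1)) (fun b => Lead 1 b ∧ ∀ K : ℕ, k ≤ K →
      K + 1 ≤ 1 → (cnt (upTo 𝒩 K) 1 b : ℝ) < c₀ / 2 * harm 𝒩 K)
    rw [card_range] at this
    exact_mod_cast this
  | succ r ih =>
    obtain ⟨m, hm1, hm⟩ := ih
    set k' := max k₀ (max (11 * m) k) with hk'
    have hk'1 : k₀ ≤ k' := le_max_left _ _
    have hk'2 : 11 * m ≤ k' := (le_max_left _ _).trans (le_max_right _ _)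
    have hk'3 : k ≤ k' := (le_max_right _ _).trans (le_max_right _ _)
    obtain ⟨K, hreg', hK1, hK2⟩ : ∃ K, (∀ M : ℕ, M ∈ 𝒩 →
        ∑ N ∈ (upTo 𝒩 K).filter (fun N => M < N),
          1 / ((N : ℝ) - (M : ℝ)) ≤ B₀ * (1 + harm 𝒩 K)) ∧
        k' ≤ K ∧ 2 * harm 𝒩 k' + 1 ≤ harm 𝒩 K :=
      (hreg.and_eventually ((eventually_ge_atTop k').and
        (hH.eventually_ge_atTop (2 * harm 𝒩 k' + 1)))).exists
    have hh0 : 0 ≤ harm 𝒩 k' := by
      rw [harm_def]
      exact Finset.sum_nonneg (fun N _ => by positivity)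
    have hHK1 : 1 ≤ harm 𝒩 K := by linarith
    set I := (upTo 𝒩 K).filter (fun N => k' < N) with hI
    have hIsum : harm 𝒩 K / 2 ≤ ∑ N ∈ I, 1 / (N : ℝ) := by
      have e1 : harm 𝒩 K = ∑ N ∈ I, 1 / (N : ℝ) +
          ∑ N ∈ (upTo 𝒩 K).filter (fun N => ¬ k' < N), 1 / (N : ℝ) := by
        rw [harm_def, hI]
        exact (Finset.sum_filter_add_sum_filter_not _ _ _).symm
      have e2 : ∑ N ∈ (upTo 𝒩 K).filter (fun N => ¬ k' < N), 1 / (N : ℝ) ≤ harm 𝒩 k' := by
        rw [harm_def]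
        apply Finset.sum_le_sum_of_subset_of_nonneg
        · intro N hN
          unfold upTo at hN
          rw [mem_filter, mem_filter, mem_Icc] at hN
          rw [mem_filter, mem_Icc]
          exact ⟨⟨hN.1.1.1, not_lt.1 hN.2⟩, hN.1.2⟩
        · intro N _ _
          positivity
      linarith
    refine ⟨K + 1, by omega, ?_⟩
    have hmK : m ≤ K + 1 := by omega
    have key := step (m := m) (m' := K + 1) hmK
      (fun b => Lead m b ∧ ∀ K : ℕ, k ≤ K → K + 1 ≤ m →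
        (cnt (upTo 𝒩 K) m b : ℝ) < c₀ / 2 * harm 𝒩 K)
      (fun b => Lead (K + 1) b ∧ ∀ K' : ℕ, k ≤ K' → K' + 1 ≤ K + 1 →
        (cnt (upTo 𝒩 K') (K + 1) b : ℝ) < c₀ / 2 * harm 𝒩 K')
      (fun b => (cnt I (K + 1) b : ℝ) < c₀ * (harm 𝒩 K / 2)) (ρ := ρ) (R := ρ ^ r)
      (by
        intro b hb
        obtain ⟨hb1, hb2⟩ := hb
        refine ⟨⟨(lead_level hm1 hmK b).2 hb1, ?_⟩, ?_⟩
        · intro K' hK' hK'm
          rw [cnt_level hmK]
          · exact hb2 K' hK' (by omega)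
          · intro N hN
            unfold upTo at hN
            rw [mem_filter, mem_Icc] at hN
            omega
        · have h3 := hb2 K (by omega) le_rfl
          have h4 : (cnt I (K + 1) b : ℝ) ≤ (cnt (upTo 𝒩 K) (K + 1) b : ℝ) := by
            exact_mod_cast cnt_mono (Finset.filter_subset _ _) _ _
          linarith)
      (by rw [hρ]; linarith)
      (by
        intro d hd hBd
        have hb := hblock k' hk'1 m hm1 hk'2 d hd hBd.1 (K + 1) I hmK
          (by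
            intro N hN
            rw [hI, mem_filter] at hN
            unfold upTo at hN
            rw [mem_filter, mem_Icc] at hN
            omega)
          (harm 𝒩 K / 2) (B₀ * (1 + harm 𝒩 K)) (by positivity) (by positivity) hIsum
          (by
            intro M hM
            rw [hI, mem_filter] at hM
            have hM' : M ∈ 𝒩 := by
              have := hM.1
              unfold upTo at this
              rw [mem_filter] at this
              exact this.2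
            refine le_trans ?_ (hreg' M hM')
            apply Finset.sum_le_sum_of_subset_of_nonneg
            · intro N hN
              rw [mem_filter, hI, mem_filter] at hN
              rw [mem_filter]
              exact ⟨hN.1.1, hN.2⟩
            · intro N hN _
              rw [mem_filter] at hN
              have : (0 : ℝ) < (N : ℝ) - (M : ℝ) := by
                rw [sub_pos]; exact_mod_cast hN.2
              positivity)
        refine hb.trans ?_
        apply mul_le_mul_of_nonneg_right _ (by positivity)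
        rw [hρ]
        have h5 : c₀ / (2 * (1 + 2 * B₀)) ≤ c₀ * (harm 𝒩 K / 2) / (1 + B₀ * (1 + harm 𝒩 K)) := by
          rw [div_le_div_iff₀ (by positivity) (by positivity)]
          have h6 : 1 + B₀ * (1 + harm 𝒩 K) ≤ harm 𝒩 K * (1 + 2 * B₀) := by nlinarith
          calc c₀ * (1 + B₀ * (1 + harm 𝒩 K)) ≤ c₀ * (harm 𝒩 K * (1 + 2 * B₀)) :=
                mul_le_mul_of_nonneg_left h6 h0.le
            _ = c₀ * (harm 𝒩 K / 2) * (2 * (1 + 2 * B₀)) := by ring
        linarith)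
      hm
    rw [pow_succ ρ]
    exact key

end Pool.Agent.H541.PP
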