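import Pool.Agent.H541.PP.Chain

/-!
# The chain of blocks `[k, k ^ 2]` with `k = 2 ^ (3 ^ j)`
-/

set_option autoImplicit false

namespace Pool.Agent.H541.PP

open Finset Filter

lemma sum_low {a b : ℕ} (ha : 1 ≤ a) (hab : a ≤ b) :
    Real.log ((b : ℝ) + 1) - Real.log (a : ℝ) ≤ ∑ N ∈ Icc a b, 1 / (N : ℝ) := by
  have key : ∀ n : ℕ, 1 ≤ n → Real.log ((n : ℝ) + 1) - Real.log (n : ℝ) ≤ 1 / (n : ℝ) := by
    intro n hn
    have hn0 : (0 : ℝ) < (n : ℝ) := by exact_mod_cast hn
    rw [← Real.log_div (by positivity) (by positivity)]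
    have := Real.log_le_sub_one_of_pos (show 0 < ((n : ℝ) + 1) / (n : ℝ) by positivity)
    refine this.trans (le_of_eq ?_)
    field_simp
    ring
  induction b, hab using Nat.le_induction with
  | base =>
    rw [Icc_self, sum_singleton]
    exact key a ha
  | succ b hab ih =>
    rw [Finset.sum_Icc_succ_top (by omega)]
    have := key (b + 1) (by omega)
    push_cast at this ⊢
    linarith

lemma sum_up (K : ℕ) : ∑ L ∈ Icc 1 K, 1 / (L : ℝ) ≤ 1 + Real.log (K : ℝ) := by
  have h := harmonic_le_one_add_log K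
  rw [harmonic_eq_sum_Icc] at h
  push_cast at h
  refine le_trans (le_of_eq ?_) h
  apply Finset.sum_congr rfl
  intro L _
  rw [one_div]

lemma sum_diff {s : Finset ℕ} {K M : ℕ} (hs : ∀ N ∈ s, N ≤ K) :
    ∑ N ∈ s.filter (fun N => M < N), 1 / ((N : ℝ) - (M : ℝ)) ≤ 1 + Real.log (K : ℝ) := by
  have e1 : ∑ N ∈ s.filter (fun N => M < N), 1 / ((N : ℝ) - (M : ℝ)) =
      ∑ L ∈ (s.filter (fun N => M < N)).image (fun N => N - M), 1 / (L : ℝ) := by
    rw [Finset.sum_image]
    · apply Finset.sum_congr rfl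
      intro N hN
      rw [mem_filter] at hN
      rw [Nat.cast_sub hN.2.le]
    · intro a ha b hb hab
      simp only [coe_filter, Set.mem_ofPred_eq] at ha hb hab
      omega
  rw [e1]
  refine le_trans ?_ (sum_up K)
  apply Finset.sum_le_sum_of_subset_of_nonneg
  · intro L hL
    rw [mem_image] at hL
    obtain ⟨N, hN, rfl⟩ := hL
    rw [mem_filter] at hN
    have := hs N hN.1
    rw [mem_Icc]
    omega
  · intro L _ _
    positivity

/-- the start of the block `j` -/
def kk (j : ℕ) : ℕ := 2 ^ 3 ^ j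

/-- the number of digits seen by the blocks up to `j` -/
def mm (j : ℕ) : ℕ := kk j ^ 2 + 1

/-- the block `j` of levels -/
def II (j : ℕ) : Finset ℕ := Icc (kk j) (kk j ^ 2)

lemma kk_succ (j : ℕ) : kk (j + 1) = kk j ^ 3 := by
  unfold kk
  rw [← pow_mul, pow_succ]

lemma kk_mono {i j : ℕ} (h : i ≤ j) : kk i ≤ kk j := by
  unfold kk
  exact Nat.pow_le_pow_right (by norm_num) (Nat.pow_le_pow_right (by norm_num) h)

lemma kk_ge (j : ℕ) : j ≤ kk j := by
  unfold kk
  calc j ≤ 3 ^ j := (Nat.lt_pow_self (by norm_num)).le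
    _ ≤ 2 ^ 3 ^ j := (Nat.lt_pow_self (by norm_num)).le

lemma kk_big {j : ℕ} (h : 12 ≤ j) : 12 ≤ kk j := h.trans (kk_ge j)

lemma mm_le {j : ℕ} (h : 12 ≤ j) : 11 * mm j ≤ kk (j + 1) := by
  have h1 := kk_big h
  rw [kk_succ]
  unfold mm
  nlinarith [Nat.mul_le_mul h1 h1]

lemma kk_le_mm (j : ℕ) : kk j ≤ mm j := by
  unfold mm
  have : kk j ≤ kk j ^ 2 := Nat.le_self_pow (by norm_num) _
  omega

lemma mm_mono' {j : ℕ} (h : 12 ≤ j) : mm j ≤ mm (j + 1) := by
  have := mm_le h
  have := kk_le_mm (j + 1)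
  omega

lemma log_kk (j : ℕ) : Real.log (kk j : ℝ) = 3 ^ j * Real.log 2 := by
  unfold kk
  push_cast
  rw [Real.log_pow]
  push_cast
  ring

lemma num_le (m : ℕ) (P : ℕ → Prop) : num m P ≤ 10 ^ m := by
  classical
  unfold num
  have := Finset.card_filter_le (range (10 ^ m)) P
  rw [card_range] at this
  exact_mod_cast this

theorem chainQ : ∃ c : ℝ, 0 < c ∧ ∃ ρ : ℝ, 0 < ρ ∧ ρ < 1 ∧ ∃ J₀ : ℕ, ∀ j, J₀ ≤ j → ∀ r : ℕ,
    num (mm (j + r)) (fun b => Lead (mm (j + r)) b ∧ ∀ i, j < i → i ≤ j + r →
      (cnt (II i) (mm (j + r)) b : ℝ) < c * Real.log (kk i : ℝ)) ≤ ρ ^ r * 10 ^ (mm (j + r)) := by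
  obtain ⟨c₀, h0, h1, k₀, hblock⟩ := block'
  refine ⟨c₀, h0, 1 - c₀ / 4, by linarith, by linarith, max k₀ 12, ?_⟩
  intro j hj r
  have hj1 : k₀ ≤ j := (le_max_left _ _).trans hj
  have hj2 : 12 ≤ j := (le_max_right _ _).trans hj
  induction r with
  | zero =>
    rw [pow_zero, one_mul]
    exact num_le _ _
  | succ r ih =>
    have hle : mm (j + r) ≤ mm (j + (r + 1)) := mm_mono' (by omega)
    have hmm1 : 1 ≤ mm (j + r) := by unfold mm; omega
    set n := j + r with hn
    have hn1 : j + (r + 1) = n + 1 := by omega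
    rw [hn1] at hle ⊢
    have hk : (12 : ℝ) ≤ (kk (n + 1) : ℝ) := by
      exact_mod_cast kk_big (show 12 ≤ n + 1 by omega)
    have hlog1 : 1 ≤ Real.log (kk (n + 1) : ℝ) := by
      rw [Real.le_log_iff_exp_le (by linarith)]
      have := Real.exp_one_lt_d9
      linarith
    have key := step (m := mm n) (m' := mm (n + 1)) hle
      (fun b => Lead (mm n) b ∧ ∀ i, j < i → i ≤ n →
        (cnt (II i) (mm n) b : ℝ) < c₀ * Real.log (kk i : ℝ))
      (fun b => Lead (mm (n + 1)) b ∧ ∀ i, j < i → i ≤ n + 1 →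
        (cnt (II i) (mm (n + 1)) b : ℝ) < c₀ * Real.log (kk i : ℝ))
      (fun b => (cnt (II (n + 1)) (mm (n + 1)) b : ℝ) < c₀ * Real.log (kk (n + 1) : ℝ))
      (ρ := 1 - c₀ / 4) (R := (1 - c₀ / 4) ^ r)
      (by
        intro b hb
        obtain ⟨hb1, hb2⟩ := hb
        refine ⟨⟨(lead_level hmm1 hle b).2 hb1, ?_⟩, hb2 (n + 1) (by omega) le_rfl⟩
        intro i hi1 hi2
        rw [cnt_level hle]
        · exact hb2 i hi1 (by omega)
        · intro N hN
          unfold II at hN
          rw [mem_Icc] at hN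
          have h3 : kk i ^ 2 ≤ kk n ^ 2 := Nat.pow_le_pow_left (kk_mono hi2) 2
          unfold mm
          omega)
      (by linarith)
      (by
        intro d hd hBd
        have hb := hblock (kk (n + 1)) (by have := kk_ge (n + 1); omega) (mm n) hmm1
          (mm_le (by omega)) d hd hBd.1 (mm (n + 1)) (II (n + 1)) hle
          (by
            intro N hN
            unfold II at hN
            rw [mem_Icc] at hN
            unfold mm
            omega)
          (Real.log (kk (n + 1) : ℝ)) (1 + 2 * Real.log (kk (n + 1) : ℝ)) (by linarith)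
          (by linarith)
          (by
            unfold II
            have hle2 : kk (n + 1) ≤ kk (n + 1) ^ 2 := Nat.le_self_pow (by norm_num) _
            refine le_trans ?_ (sum_low (by have := kk_big (show 12 ≤ n + 1 by omega); omega) hle2)
            have : 2 * Real.log (kk (n + 1) : ℝ) ≤
                Real.log (((kk (n + 1) ^ 2 : ℕ) : ℝ) + 1) := by
              rw [← Real.log_rpow (by linarith)]
              apply Real.log_le_log (by positivity)
              norm_num
            linarith)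
          (by
            intro M hM
            have h4 := sum_diff (s := II (n + 1)) (K := kk (n + 1) ^ 2) (M := M)
              (by
                intro N hN
                unfold II at hN
                rw [mem_Icc] at hN
                exact hN.2)
            have h5 : Real.log ((kk (n + 1) ^ 2 : ℕ) : ℝ) = 2 * Real.log (kk (n + 1) : ℝ) := by
              push_cast
              rw [Real.log_pow]
              push_cast
              ring
            rw [h5] at h4
            exact h4)
        refine hb.trans ?_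
        apply mul_le_mul_of_nonneg_right _ (by positivity)
        have h6 : c₀ / 4 ≤ c₀ * Real.log (kk (n + 1) : ℝ) /
            (1 + (1 + 2 * Real.log (kk (n + 1) : ℝ))) := by
          rw [div_le_div_iff₀ (by norm_num) (by linarith)]
          nlinarith
        linarith)
      ih
    rw [pow_succ (1 - c₀ / 4)]
    exact key

end Pool.Agent.H541.PP
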