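import Pool.Agent.H541.PP.Mir

/-!
# Counting prefixes whose mirror palindrome is an almost prime
-/

set_option autoImplicit false

namespace Pool.Agent.H541.PP

open Finset Filter

/-- every prime factor `p` of `n` satisfies `10 ^ N < p ^ s` -/
def Rough (s N n : ℕ) : Prop := ∀ p ∈ n.primeFactorsList, 10 ^ N < p ^ s

/-- the mirror palindrome of `c` has at most four prime factors, all of them larger than
`10 ^ (N / 11)` -/
def Good (N c : ℕ) : Prop := (mirror N c).primeFactorsList.length ≤ 4 ∧ Rough 11 N (mirror N c)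

lemma rough_of_real {N n : ℕ}
    (h : ∀ p ∈ n.primeFactorsList, (10 : ℝ) ^ ((1 - (1 / 11 : ℝ)) / 10 * (N : ℝ)) < (p : ℝ)) :
    Rough 11 N n := by
  intro p hp
  have h1 := h p hp
  have h2 : ((10 : ℝ) ^ ((1 - (1 / 11 : ℝ)) / 10 * (N : ℝ))) ^ (11 : ℕ) < (p : ℝ) ^ (11 : ℕ) :=
    pow_lt_pow_left₀ h1 (by positivity) (by norm_num)
  have h3 : ((10 : ℝ) ^ ((1 - (1 / 11 : ℝ)) / 10 * (N : ℝ))) ^ (11 : ℕ) = (10 : ℝ) ^ N := by
    rw [← Real.rpow_natCast, ← Real.rpow_mul (by norm_num), ← Real.rpow_natCast (10 : ℝ) N]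
    congr 1
    push_cast
    ring
  rw [h3] at h2
  exact_mod_cast h2

lemma pal_range {N e d n : ℕ} (he : 1 ≤ e) (heN : e ≤ 2 * N + 1) (hd : d < 10 ^ e)
    (hc : (d / 10 ^ (e - 1)).Coprime 10) (h1 : d * 10 ^ (2 * N + 1 - e) ≤ n)
    (h2 : n < (d + 1) * 10 ^ (2 * N + 1 - e)) : 10 ^ (2 * N) ≤ n ∧ n < 10 ^ (2 * N + 1) := by
  have hd1 : 10 ^ (e - 1) ≤ d := by
    by_contra hcon
    push Not at hcon
    rw [Nat.div_eq_of_lt hcon] at hc
    norm_num at hc
  constructor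
  · calc 10 ^ (2 * N) = 10 ^ (e - 1) * 10 ^ (2 * N + 1 - e) := by
          rw [← pow_add]; congr 1; omega
      _ ≤ d * 10 ^ (2 * N + 1 - e) := Nat.mul_le_mul_right _ hd1
      _ ≤ n := h1
  · calc n < (d + 1) * 10 ^ (2 * N + 1 - e) := h2
      _ ≤ 10 ^ e * 10 ^ (2 * N + 1 - e) := Nat.mul_le_mul_right _ hd
      _ = 10 ^ (2 * N + 1) := by rw [← pow_add]; congr 1; omega

open Classical in
/-- lower bound for the number of good prefixes in a cylinder -/
theorem lowG : ∃ c : ℝ, 0 < c ∧ ∃ N₀ : ℕ, ∀ N : ℕ, N₀ ≤ N → ∀ e : ℕ, 1 ≤ e → 11 * e ≤ N →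
    ∀ d < 10 ^ e, (d / 10 ^ (e - 1)).Coprime 10 →
      c * 10 ^ (N - e) / (N : ℝ) ≤
        (((Ico (d * 10 ^ (N + 1 - e)) ((d + 1) * 10 ^ (N + 1 - e))).filter (Good N)).card : ℝ) := by
  obtain ⟨c, hc, h⟩ := Pool.Agent.Q26.PL.lead10 (θ := 1 / 11) (by norm_num) (by norm_num) (r := 4)
    (by norm_num)
  obtain ⟨N₀, hN₀⟩ := eventually_atTop.1 h
  refine ⟨c, hc, N₀, ?_⟩
  intro N hN e he heN d hd hcop
  have h1 := hN₀ N hN e he (by
    have : ((11 * e : ℕ) : ℝ) ≤ (N : ℝ) := by exact_mod_cast heN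
    push_cast at this
    linarith) d hd hcop
  refine h1.trans ?_
  have hle : e ≤ N := by omega
  norm_cast
  apply Finset.card_le_card_of_injOn (fun n => n / 10 ^ N)
  · intro n hn
    simp only [coe_filter, Set.mem_ofPred_eq, mem_Ico] at hn ⊢
    obtain ⟨⟨ha, hb⟩, hr, hlen, hp⟩ := hn
    obtain ⟨hx, hy⟩ := pal_range he (by omega) hd hcop ha hb
    have hm := mirror_of_pal hx hy hr
    have hs : 10 ^ (2 * N + 1 - e) = 10 ^ (N + 1 - e) * 10 ^ N := by
      rw [← pow_add]; congr 1; omega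
    refine ⟨⟨?_, ?_⟩, ?_, ?_⟩
    · rw [Nat.le_div_iff_mul_le (by positivity), mul_assoc, ← hs]
      exact ha
    · rw [Nat.div_lt_iff_lt_mul (by positivity), mul_assoc, ← hs]
      exact hb
    · rw [hm]; exact hlen
    · rw [hm]
      apply rough_of_real
      exact hp
  · intro n hn n' hn' hEq
    simp only [coe_filter, Set.mem_ofPred_eq, mem_Ico] at hn hn'
    obtain ⟨⟨ha, hb⟩, hr, -⟩ := hn
    obtain ⟨⟨ha', hb'⟩, hr', -⟩ := hn'
    obtain ⟨hx, hy⟩ := pal_range he (by omega) hd hcop ha hb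
    obtain ⟨hx', hy'⟩ := pal_range he (by omega) hd hcop ha' hb'
    have e1 := mirror_of_pal hx hy hr
    have e2 := mirror_of_pal hx' hy' hr'
    rw [← e1, ← e2]
    simp only at hEq
    rw [hEq]

open Classical in
/-- upper bound for the number of rough mirror palindromes above a given prefix -/
theorem upR : ∃ C : ℝ, 0 < C ∧ ∃ L₀ : ℕ, 1 ≤ L₀ ∧ ∀ L M c : ℕ, L₀ ≤ L → 10 ^ M ≤ c →
    c < 10 ^ (M + 1) →
      (((Ico (c * 10 ^ (L + 1)) ((c + 1) * 10 ^ (L + 1))).filter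
        (fun a => Rough 12 (M + L + 1) (mirror (M + L + 1) a))).card : ℝ) ≤
        C * 10 ^ L / (L : ℝ) := by
  obtain ⟨c', C, hc', hC, L₀, h⟩ := Pool.Agent.Y816.PS.paltwo (b := 10) (by norm_num)
  refine ⟨C, hC, max L₀ 1, le_max_right _ _, ?_⟩
  intro L M c hL h1 h2
  have hL1 : L₀ ≤ L := (le_max_left _ _).trans hL
  set N := M + L + 1 with hN
  have hx1 : 10 ^ (2 * N) ≤ c * 10 ^ (N + L + 1) := by
    calc 10 ^ (2 * N) = 10 ^ M * 10 ^ (N + L + 1) := by rw [← pow_add]; congr 1; omega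
      _ ≤ c * 10 ^ (N + L + 1) := Nat.mul_le_mul_right _ h1
  have hx2 : c * 10 ^ (N + L + 1) < 10 ^ (2 * N + 1) := by
    calc c * 10 ^ (N + L + 1) < 10 ^ (M + 1) * 10 ^ (N + L + 1) :=
          Nat.mul_lt_mul_of_pos_right h2 (by positivity)
      _ = 10 ^ (2 * N + 1) := by rw [← pow_add]; congr 1; omega
  obtain ⟨-, h4, -⟩ := h L N (c * 10 ^ (N + L + 1)) hL1 (by omega) hx1 hx2
  push_cast at h4
  refine le_trans ?_ h4
  norm_cast
  apply Finset.card_le_card_of_injOn (fun a => mirror N a)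
  · intro a ha
    simp only [coe_filter, Set.mem_ofPred_eq, mem_Ico, mem_range] at ha ⊢
    obtain ⟨⟨ha1, ha2⟩, hr⟩ := ha
    have hlo : 10 ^ N ≤ a := by
      calc 10 ^ N = 10 ^ M * 10 ^ (L + 1) := by rw [← pow_add]; congr 1
        _ ≤ c * 10 ^ (L + 1) := Nat.mul_le_mul_right _ h1
        _ ≤ a := ha1
    have hhi : a < 10 ^ (N + 1) := by
      calc a < (c + 1) * 10 ^ (L + 1) := ha2
        _ ≤ 10 ^ (M + 1) * 10 ^ (L + 1) := Nat.mul_le_mul_right _ h2
        _ = 10 ^ (N + 1) := by rw [← pow_add]; congr 1; omega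
    have hdiv : mirror N a / 10 ^ N = a := mirror_div hhi
    have hdiv2 : mirror N a / 10 ^ (N + L + 1) = c := by
      have e1 : 10 ^ (N + L + 1) = 10 ^ N * 10 ^ (L + 1) := by rw [← pow_add]; congr 1
      rw [e1, ← Nat.div_div_eq_div_mul, hdiv]
      apply Nat.div_eq_of_lt_le
      · exact ha1
      · exact ha2
    refine ⟨?_, mirror_rev hlo hhi, ?_, ?_⟩
    · have hq : 0 < 10 ^ N := by positivity
      have := (Nat.div_lt_iff_lt_mul (x := mirror N a) (y := 10 ^ (N + 1)) hq).1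
        (by rw [hdiv]; exact hhi)
      calc mirror N a < 10 ^ (N + 1) * 10 ^ N := this
        _ = 10 ^ (2 * N + 1) := by rw [← pow_add]; congr 1; omega
    · rw [hdiv2, Nat.mul_div_cancel _ (by positivity)]
    · intro p hp
      refine lt_of_le_of_lt ?_ (hr p hp)
      exact Nat.pow_le_pow_right (by norm_num) (by omega)
  · intro a ha a' ha' hEq
    simp only [coe_filter, Set.mem_ofPred_eq, mem_Ico] at ha ha'
    have hhi : a < 10 ^ (N + 1) := by
      calc a < (c + 1) * 10 ^ (L + 1) := ha.1.2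
        _ ≤ 10 ^ (M + 1) * 10 ^ (L + 1) := Nat.mul_le_mul_right _ h2
        _ = 10 ^ (N + 1) := by rw [← pow_add]; congr 1; omega
    have hhi' : a' < 10 ^ (N + 1) := by
      calc a' < (c + 1) * 10 ^ (L + 1) := ha'.1.2
        _ ≤ 10 ^ (M + 1) * 10 ^ (L + 1) := Nat.mul_le_mul_right _ h2
        _ = 10 ^ (N + 1) := by rw [← pow_add]; congr 1; omega
    rw [← mirror_div hhi, ← mirror_div hhi']
    simp only at hEq
    rw [hEq]

lemma good_rough {N c : ℕ} (h : Good N c) : Rough 12 N (mirror N c) := by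
  intro p hp
  have h1 := h.2 p hp
  have hp1 : 1 ≤ p := (Nat.prime_of_mem_primeFactorsList hp).one_lt.le
  calc 10 ^ N < p ^ 11 := h1
    _ ≤ p ^ 12 := Nat.pow_le_pow_right hp1 (by norm_num)

open Classical in
lemma fib {q : ℕ} (hq : 0 < q) (u v : ℕ) (P Q : ℕ → Prop) :
    ((Ico (u * q) (v * q)).filter (fun a => P (a / q) ∧ Q a)).card =
      ∑ c ∈ (Ico u v).filter P, ((Ico (c * q) ((c + 1) * q)).filter Q).card := by
  rw [Finset.card_eq_sum_card_fiberwise (f := fun a => a / q) (t := (Ico u v).filter P)]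
  · apply Finset.sum_congr rfl
    intro c hc
    congr 1
    ext a
    simp only [mem_filter, mem_Ico] at hc ⊢
    constructor
    · rintro ⟨⟨⟨h1, h2⟩, h3, h4⟩, h5⟩
      refine ⟨⟨?_, ?_⟩, h4⟩
      · rw [← h5]; exact Nat.div_mul_le_self a q
      · rw [← h5]
        exact (Nat.div_lt_iff_lt_mul hq).1 (Nat.lt_succ_self _)
    · rintro ⟨⟨h1, h2⟩, h4⟩
      have h5 : a / q = c := Nat.div_eq_of_lt_le h1 h2
      refine ⟨⟨⟨?_, ?_⟩, ?_, h4⟩, h5⟩
      · exact (Nat.mul_le_mul_right q hc.1.1).trans h1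
      · exact h2.trans_le (Nat.mul_le_mul_right q hc.1.2)
      · rw [h5]; exact hc.2
  · intro a ha
    simp only [coe_filter, Set.mem_ofPred_eq, mem_Ico] at ha ⊢
    refine ⟨⟨?_, ?_⟩, ha.2.1⟩
    · exact (Nat.le_div_iff_mul_le hq).2 ha.1.1
    · exact (Nat.div_lt_iff_lt_mul hq).2 ha.1.2

open Classical in
lemma fib1 {q : ℕ} (hq : 0 < q) (u v : ℕ) (P : ℕ → Prop) :
    ((Ico (u * q) (v * q)).filter (fun a => P (a / q))).card =
      ((Ico u v).filter P).card * q := by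
  have h := fib hq u v P (fun _ => True)
  simp only [and_true] at h
  rw [h]
  calc _ = ∑ c ∈ (Ico u v).filter P, q := by
        apply Finset.sum_congr rfl
        intro c _
        trans (Ico (c * q) ((c + 1) * q)).card
        · congr 1
          ext a
          simp only [mem_filter, and_true]
        · rw [Nat.card_Ico, Nat.add_mul, Nat.one_mul, Nat.add_sub_cancel_left]
    _ = _ := by rw [Finset.sum_const, smul_eq_mul]

end Pool.Agent.H541.PP
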