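import Pool.Agent.H541.PP.Meas3

/-!
# Sets of positive upper logarithmic density
-/

set_option autoImplicit false

namespace Pool.Agent.H541.PP

open Finset Filter MeasureTheory

lemma harm_mono (𝒩 : Set ℕ) : Monotone (harm 𝒩) := by
  classical
  intro a b hab
  rw [harm_def, harm_def]
  apply Finset.sum_le_sum_of_subset_of_nonneg
  · intro N hN
    rw [mem_filter, mem_Icc] at hN ⊢
    exact ⟨⟨hN.1.1, hN.1.2.trans hab⟩, hN.2⟩
  · intro N _ _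
    positivity

lemma harm_tendsto {𝒩 : Set ℕ} {δ : ℝ} (hδ : 0 < δ)
    (h : ∃ᶠ K : ℕ in atTop, δ * Real.log (K : ℝ) ≤ harm 𝒩 K) :
    Tendsto (harm 𝒩) atTop atTop := by
  apply tendsto_atTop_atTop_of_monotone (harm_mono 𝒩)
  intro b
  have h1 : Tendsto (fun K : ℕ => δ * Real.log (K : ℝ)) atTop atTop :=
    (Real.tendsto_log_atTop.comp tendsto_natCast_atTop_atTop).const_mul_atTop hδ
  obtain ⟨K, hK1, hK2⟩ := (h.and_eventually (h1.eventually_ge_atTop b)).exists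
  exact ⟨K, hK2.trans hK1⟩

theorem divD : ∃ c : ℝ, 0 < c ∧ ∀ 𝒩 : Set ℕ,
    (∃ δ : ℝ, 0 < δ ∧ ∃ᶠ K : ℕ in atTop, δ * Real.log (K : ℝ) ≤ harm 𝒩 K) →
    ∀ᵐ x : ℝ, 0 ≤ x → x < 1 → (pre 1 x).Coprime 10 →
      ∃ᶠ K in atTop, c * harm 𝒩 K ≤ (cntx (upTo 𝒩 K) x : ℝ) := by
  classical
  obtain ⟨c, hc, h⟩ := divN
  refine ⟨c, hc, ?_⟩
  rintro 𝒩 ⟨δ, hδ, hf⟩
  refine h 𝒩 (1 + 1 / δ) (by positivity) (harm_tendsto hδ hf) ?_
  refine hf.mono ?_
  intro K hK M _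
  have h1 := sum_diff (s := upTo 𝒩 K) (K := K) (M := M) (by
    intro N hN
    unfold upTo at hN
    rw [mem_filter, mem_Icc] at hN
    exact hN.1.2)
  refine h1.trans ?_
  have h0 : 0 ≤ harm 𝒩 K := by
    rw [harm_def]
    exact Finset.sum_nonneg (fun N _ => by positivity)
  have h2 : Real.log (K : ℝ) ≤ 1 / δ * harm 𝒩 K := by
    rw [one_div, inv_mul_eq_div, le_div_iff₀ hδ]
    linarith
  have h3 : 0 < 1 / δ := by positivity
  nlinarith

end Pool.Agent.H541.PP
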