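import Mathlib
import Pool.Graph.R_pool_sql_team_seeded_3997aac3.Q273.CG.Tree2

/-!
# A version of the dimension bound for trees with the losses made explicit
-/

set_option autoImplicit false

namespace Pool.Agent.H541.PP

open Set Filter Topology
open scoped ENNReal NNReal

theorem dim_steps {a b : ℝ} {s : ℝ≥0} (hs : 0 < s) (hs1 : (s : ℝ) ≤ 1) (ℓ κ : ℕ → ℝ) (T : ℕ → ℕ)
    (A : ℕ → Set ℝ) (hℓ : ∀ n, 0 < ℓ n) (hab : ℓ 0 ≤ b - a) (hκ0 : ∀ n, 0 < κ n)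
    (hκ1 : ∀ n, κ n ≤ 1) (hhalf : ∀ n, 2 * ℓ (n + 1) ≤ ℓ n)
    (hTκ : ∀ n, κ n * ℓ n ≤ T n * ℓ (n + 1))
    (hgrow : ∀ n, 1 ≤ κ (n + 1) * (ℓ n / ℓ (n + 1)) ^ (1 - (s : ℝ)))
    (hA : ∀ n w, a ≤ w → w + ℓ n ≤ b → ∃ φ : ℕ → ℝ,
      (∀ j, j < T n → w ≤ φ j ∧ φ j + ℓ (n + 1) ≤ w + ℓ n ∧ Icc (φ j) (φ j + ℓ (n + 1)) ⊆ A n) ∧
      ∀ i j : ℕ, i < j → j < T n → φ i + ℓ (n + 1) + ((j : ℝ) - i) * ℓ (n + 1) ≤ φ j) :
    (s : ℝ≥0∞) ≤ dimH {α : ℝ | a ≤ α ∧ α ≤ b ∧ ∀ n, α ∈ A n} := by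
  have hs0 : (0 : ℝ) < s := by exact_mod_cast hs
  have hTpos : ∀ n, 0 < T n := by
    intro n
    rcases Nat.eq_zero_or_pos (T n) with h | h
    · have h1 := hTκ n
      rw [h] at h1
      have h2 := mul_pos (hκ0 n) (hℓ n)
      simp at h1
      linarith
    · exact h
  have hℓle : ∀ n, ℓ n ≤ ℓ 0 * (1 / 2) ^ n := by
    intro n
    induction n with
    | zero => simp
    | succ n ih =>
      rw [pow_succ]
      have := hhalf n
      linarith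
  have hℓ0 : Tendsto ℓ atTop (𝓝 0) := by
    have h1 : Tendsto (fun n : ℕ => ℓ 0 * (1 / 2 : ℝ) ^ n) atTop (𝓝 0) := by
      have := (tendsto_pow_atTop_nhds_zero_of_lt_one (show (0 : ℝ) ≤ 1 / 2 by norm_num)
        (by norm_num)).const_mul (ℓ 0)
      rwa [mul_zero] at this
    exact squeeze_zero (fun n => (hℓ n).le) hℓle h1
  -- the products of the numbers of children
  have hP : ∀ n, ℓ 0 * ∏ i ∈ Finset.range n, κ i ≤
      (∏ i ∈ Finset.range n, (T i : ℝ)) * ℓ n := by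
    intro n
    induction n with
    | zero => simp
    | succ n ih =>
      rw [Finset.prod_range_succ, Finset.prod_range_succ]
      have hP0 : (0 : ℝ) ≤ ∏ i ∈ Finset.range n, (T i : ℝ) :=
        Finset.prod_nonneg (fun i _ => by positivity)
      calc ℓ 0 * ((∏ i ∈ Finset.range n, κ i) * κ n)
          = (ℓ 0 * ∏ i ∈ Finset.range n, κ i) * κ n := by ring
        _ ≤ ((∏ i ∈ Finset.range n, (T i : ℝ)) * ℓ n) * κ n :=
            mul_le_mul_of_nonneg_right ih (hκ0 n).le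
        _ = (∏ i ∈ Finset.range n, (T i : ℝ)) * (κ n * ℓ n) := by ring
        _ ≤ (∏ i ∈ Finset.range n, (T i : ℝ)) * (T n * ℓ (n + 1)) :=
            mul_le_mul_of_nonneg_left (hTκ n) hP0
        _ = (∏ i ∈ Finset.range n, (T i : ℝ)) * T n * ℓ (n + 1) := by ring
  -- the potential
  set D : ℕ → ℝ := fun n => (∏ i ∈ Finset.range (n + 1), κ i) * (ℓ n) ^ ((s : ℝ) - 1) with hD
  have hD0 : 0 < D 0 := by
    rw [hD]
    simp only [zero_add, Finset.prod_range_one]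
    exact mul_pos (hκ0 0) (Real.rpow_pos_of_pos (hℓ 0) _)
  have hDmono : ∀ n, D 0 ≤ D n := by
    intro n
    induction n with
    | zero => exact le_rfl
    | succ n ih =>
      refine ih.trans ?_
      have hprodpos : 0 < ∏ i ∈ Finset.range (n + 1), κ i := Finset.prod_pos (fun i _ => hκ0 i)
      have e1 : (ℓ n / ℓ (n + 1)) ^ (1 - (s : ℝ)) =
          (ℓ (n + 1)) ^ ((s : ℝ) - 1) * ((ℓ n) ^ ((s : ℝ) - 1))⁻¹ := by
        rw [Real.div_rpow (hℓ n).le (hℓ (n + 1)).le, div_eq_mul_inv, ← Real.rpow_neg (hℓ _).le,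
          ← Real.rpow_neg (hℓ n).le, mul_comm]
        congr 2 <;> ring
      have h1 := hgrow n
      rw [e1] at h1
      have h2 : 0 < (ℓ n) ^ ((s : ℝ) - 1) := Real.rpow_pos_of_pos (hℓ n) _
      have h3 : (ℓ n) ^ ((s : ℝ) - 1) ≤ κ (n + 1) * (ℓ (n + 1)) ^ ((s : ℝ) - 1) := by
        have h4 := mul_le_mul_of_nonneg_right h1 h2.le
        rw [one_mul] at h4
        refine h4.trans (le_of_eq ?_)
        field_simp
      calc D n = (∏ i ∈ Finset.range (n + 1), κ i) * (ℓ n) ^ ((s : ℝ) - 1) := rfl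
        _ ≤ (∏ i ∈ Finset.range (n + 1), κ i) * (κ (n + 1) * (ℓ (n + 1)) ^ ((s : ℝ) - 1)) :=
            mul_le_mul_of_nonneg_left h3 hprodpos.le
        _ = D (n + 1) := by
            change _ = (∏ i ∈ Finset.range (n + 1 + 1), κ i) * (ℓ (n + 1)) ^ ((s : ℝ) - 1)
            rw [Finset.prod_range_succ _ (n + 1)]
            ring
  -- the bound for the product
  have hPl : ∀ n, ℓ 0 * (∏ i ∈ Finset.range n, κ i) * (ℓ n)⁻¹ ≤
      ∏ i ∈ Finset.range n, (T i : ℝ) := by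
    intro n
    rw [← div_eq_mul_inv, div_le_iff₀ (hℓ n)]
    exact hP n
  have hkey : ∀ n, ℓ 0 * D 0 * (ℓ n) ^ (-(s : ℝ)) ≤ ∏ i ∈ Finset.range n, (T i : ℝ) := by
    intro n
    refine le_trans ?_ (hPl n)
    have h1 := hDmono n
    have h2 : D n ≤ (∏ i ∈ Finset.range n, κ i) * (ℓ n) ^ ((s : ℝ) - 1) := by
      change (∏ i ∈ Finset.range (n + 1), κ i) * (ℓ n) ^ ((s : ℝ) - 1) ≤ _
      rw [Finset.prod_range_succ]
      apply mul_le_mul_of_nonneg_right _ (Real.rpow_nonneg (hℓ n).le _)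
      have hprodpos : 0 < ∏ i ∈ Finset.range n, κ i := Finset.prod_pos (fun i _ => hκ0 i)
      have := mul_le_mul_of_nonneg_left (hκ1 n) hprodpos.le
      rwa [mul_one] at this
    have h3 : (ℓ n) ^ ((s : ℝ) - 1) * (ℓ n) ^ (-(s : ℝ)) = (ℓ n)⁻¹ := by
      rw [← Real.rpow_add (hℓ n), ← Real.rpow_neg_one]
      congr 1
      ring
    calc ℓ 0 * D 0 * (ℓ n) ^ (-(s : ℝ))
        ≤ ℓ 0 * ((∏ i ∈ Finset.range n, κ i) * (ℓ n) ^ ((s : ℝ) - 1)) * (ℓ n) ^ (-(s : ℝ)) := by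
          apply mul_le_mul_of_nonneg_right _ (Real.rpow_nonneg (hℓ n).le _)
          exact mul_le_mul_of_nonneg_left (h1.trans h2) (hℓ 0).le
      _ = ℓ 0 * (∏ i ∈ Finset.range n, κ i) * ((ℓ n) ^ ((s : ℝ) - 1) * (ℓ n) ^ (-(s : ℝ))) := by
          ring
      _ = ℓ 0 * (∏ i ∈ Finset.range n, κ i) * (ℓ n)⁻¹ := by rw [h3]
  refine Pool.Agent.Q273.CG.le_dimH_children (c := ℓ 0 * D 0) hs hs1 (mul_pos (hℓ 0) hD0) ℓ
    (fun n => ℓ (n + 1)) T A hℓ hℓ0 hab (fun n => hℓ (n + 1)) hTpos ?_ ?_ hA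
  · -- the products tend to infinity
    have h1 : Tendsto (fun n => ℓ 0 * D 0 * (ℓ n) ^ (-(s : ℝ))) atTop atTop := by
      apply Tendsto.const_mul_atTop (mul_pos (hℓ 0) hD0)
      have h2 : Tendsto ℓ atTop (𝓝[>] 0) :=
        tendsto_nhdsWithin_iff.2 ⟨hℓ0, Eventually.of_forall hℓ⟩
      have h3 := (tendsto_inv_nhdsGT_zero (𝕜 := ℝ)).comp h2
      have h4 := (tendsto_rpow_atTop hs0).comp h3
      refine h4.congr (fun n => ?_)
      simp only [Function.comp]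
      rw [Real.inv_rpow (hℓ n).le, Real.rpow_neg (hℓ n).le]
    exact tendsto_atTop_mono hkey h1
  · intro n
    have hκℓ : 0 < κ n * ℓ n := mul_pos (hκ0 n) (hℓ n)
    have h1 : (κ n * ℓ n) ^ (s : ℝ) ≤ ((T n : ℝ) * ℓ (n + 1)) ^ (s : ℝ) :=
      Real.rpow_le_rpow hκℓ.le (hTκ n) hs0.le
    have h2 : κ n ≤ (κ n) ^ (s : ℝ) := by
      have := Real.rpow_le_rpow_of_exponent_ge (hκ0 n) (hκ1 n) hs1
      rwa [Real.rpow_one] at this
    have h3 : κ n * (ℓ n) ^ (s : ℝ) ≤ (κ n * ℓ n) ^ (s : ℝ) := by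
      rw [Real.mul_rpow (hκ0 n).le (hℓ n).le]
      exact mul_le_mul_of_nonneg_right h2 (Real.rpow_nonneg (hℓ n).le _)
    have hprodpos : 0 < ∏ i ∈ Finset.range n, κ i := Finset.prod_pos (fun i _ => hκ0 i)
    have h4 : (ℓ n)⁻¹ * (ℓ n) ^ (s : ℝ) = (ℓ n) ^ ((s : ℝ) - 1) := by
      rw [← Real.rpow_neg_one, ← Real.rpow_add (hℓ n)]
      congr 1
      ring
    calc ℓ 0 * D 0 ≤ ℓ 0 * D n := mul_le_mul_of_nonneg_left (hDmono n) (hℓ 0).le
      _ = ℓ 0 * ((∏ i ∈ Finset.range n, κ i) * κ n * (ℓ n) ^ ((s : ℝ) - 1)) := by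
          change ℓ 0 * ((∏ i ∈ Finset.range (n + 1), κ i) * (ℓ n) ^ ((s : ℝ) - 1)) = _
          rw [Finset.prod_range_succ]
      _ = (ℓ 0 * (∏ i ∈ Finset.range n, κ i) * (ℓ n)⁻¹) * (κ n * (ℓ n) ^ (s : ℝ)) := by
          rw [← h4]; ring
      _ ≤ (∏ i ∈ Finset.range n, (T i : ℝ)) * (κ n * (ℓ n) ^ (s : ℝ)) := by
          apply mul_le_mul_of_nonneg_right (hPl n)
          exact mul_nonneg (hκ0 n).le (Real.rpow_nonneg (hℓ n).le _)
      _ ≤ (∏ i ∈ Finset.range n, (T i : ℝ)) * ((T n : ℝ) * ℓ (n + 1)) ^ (s : ℝ) := by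
          apply mul_le_mul_of_nonneg_left (h3.trans h1)
          exact Finset.prod_nonneg (fun i _ => by positivity)

end Pool.Agent.H541.PP
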