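import Pool.Agent.H541.PP.Up2

/-!
# From counting to measure
-/

set_option autoImplicit false

namespace Pool.Agent.H541.PP

open Finset Filter MeasureTheory

/-- the integer formed by the first `m` decimal digits of `x` -/
noncomputable def pre (m : ℕ) (x : ℝ) : ℕ := ⌊x * 10 ^ m⌋₊

lemma pre_div {e m : ℕ} (h : e ≤ m) (x : ℝ) : pre m x / 10 ^ (m - e) = pre e x := by
  unfold pre
  have h1 := Nat.floor_div_natCast (x * 10 ^ m) (10 ^ (m - e))
  rw [← h1]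
  congr 1
  push_cast
  have h2 : (10 : ℝ) ^ m = 10 ^ e * 10 ^ (m - e) := by rw [← pow_add]; congr 1; omega
  rw [h2, ← mul_assoc, mul_div_assoc, div_self (by positivity), mul_one]

lemma pre_lt {m : ℕ} {x : ℝ} (h0 : 0 ≤ x) (h1 : x < 1) : pre m x < 10 ^ m := by
  unfold pre
  rw [Nat.floor_lt (by positivity)]
  push_cast
  have : (0 : ℝ) < 10 ^ m := by positivity
  nlinarith

lemma pre_ge {K : ℕ} {x : ℝ} (h0 : 1 / 10 ≤ x) : 10 ^ K ≤ pre (K + 1) x := by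
  unfold pre
  apply Nat.le_floor
  push_cast
  rw [pow_succ]
  have : (0 : ℝ) < 10 ^ K := by positivity
  nlinarith

/-- the measure of a set defined by the first `m` digits -/
lemma vol_le (m : ℕ) (P : ℕ → Prop) :
    volume {x : ℝ | 0 ≤ x ∧ x < 1 ∧ P (pre m x)} ≤ ENNReal.ofReal (num m P / 10 ^ m) := by
  classical
  have hsub : {x : ℝ | 0 ≤ x ∧ x < 1 ∧ P (pre m x)} ⊆
      ⋃ a ∈ (range (10 ^ m)).filter P, Set.Ico ((a : ℝ) / 10 ^ m) (((a : ℝ) + 1) / 10 ^ m) := by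
    rintro x ⟨h0, h1, hP⟩
    simp only [Set.mem_iUnion]
    refine ⟨pre m x, ?_, ?_⟩
    · rw [mem_filter, mem_range]
      exact ⟨pre_lt h0 h1, hP⟩
    · have hpos : (0 : ℝ) < 10 ^ m := by positivity
      constructor
      · rw [div_le_iff₀ hpos]
        exact Nat.floor_le (by positivity)
      · rw [lt_div_iff₀ hpos]
        exact Nat.lt_floor_add_one _
  refine (measure_mono hsub).trans ?_
  refine (measure_biUnion_finset_le _ _).trans ?_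
  have hv : ∀ a ∈ (range (10 ^ m)).filter P,
      volume (Set.Ico ((a : ℝ) / 10 ^ m) (((a : ℝ) + 1) / 10 ^ m)) =
        ENNReal.ofReal (1 / 10 ^ m) := by
    intro a _
    rw [Real.volume_Ico]
    congr 1
    ring
  rw [Finset.sum_congr rfl hv, Finset.sum_const, nsmul_eq_mul]
  have hn : num m P / 10 ^ m = (((range (10 ^ m)).filter P).card : ℝ) * (1 / 10 ^ m) := by
    unfold num
    rw [mul_one_div]
  rw [hn, ENNReal.ofReal_mul (by positivity), ENNReal.ofReal_natCast]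

open Classical in
/-- the number of `N ∈ I` for which the mirror palindrome of the first `N + 1` digits of `x` is
good -/
noncomputable def cntx (I : Finset ℕ) (x : ℝ) : ℕ :=
  (I.filter (fun N => Good N (pre (N + 1) x))).card

lemma cnt_pre {I : Finset ℕ} {m : ℕ} (h : ∀ N ∈ I, N + 1 ≤ m) (x : ℝ) :
    cnt I m (pre m x) = cntx I x := by
  classical
  unfold cnt cntx
  congr 1
  apply Finset.filter_congr
  intro N hN
  rw [pre_div (h N hN)]

lemma cntx_mono {I J : Finset ℕ} (h : I ⊆ J) (x : ℝ) : cntx I x ≤ cntx J x := by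
  classical
  unfold cntx
  apply Finset.card_le_card
  intro N hN
  rw [mem_filter] at hN ⊢
  exact ⟨h hN.1, hN.2⟩

lemma lead_pre {m : ℕ} (hm : 1 ≤ m) (x : ℝ) : Lead m (pre m x) ↔ (pre 1 x).Coprime 10 := by
  unfold Lead
  rw [pre_div hm]

/-- divergence part -/
theorem divN : ∃ c : ℝ, 0 < c ∧ ∀ (𝒩 : Set ℕ) (B₀ : ℝ), 0 ≤ B₀ → Tendsto (harm 𝒩) atTop atTop →
    (∃ᶠ K in atTop, ∀ M : ℕ, M ∈ 𝒩 → ∑ N ∈ (upTo 𝒩 K).filter (fun N => M < N),
      1 / ((N : ℝ) - (M : ℝ)) ≤ B₀ * (1 + harm 𝒩 K)) →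
    ∀ᵐ x : ℝ, 0 ≤ x → x < 1 → (pre 1 x).Coprime 10 →
      ∃ᶠ K in atTop, c * harm 𝒩 K ≤ (cntx (upTo 𝒩 K) x : ℝ) := by
  classical
  obtain ⟨c, hc, h⟩ := chainN
  refine ⟨c, hc, ?_⟩
  intro 𝒩 B₀ hB₀ hH hreg
  obtain ⟨ρ, hρ0, hρ1, hch⟩ := h 𝒩 B₀ hB₀ hH hreg
  have hZ : ∀ k : ℕ, volume {x : ℝ | 0 ≤ x ∧ x < 1 ∧ ((pre 1 x).Coprime 10 ∧
      ∀ K : ℕ, k ≤ K → (cntx (upTo 𝒩 K) x : ℝ) < c * harm 𝒩 K)} = 0 := by
    intro k
    set Z := {x : ℝ | 0 ≤ x ∧ x < 1 ∧ ((pre 1 x).Coprime 10 ∧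
      ∀ K : ℕ, k ≤ K → (cntx (upTo 𝒩 K) x : ℝ) < c * harm 𝒩 K)} with hZdef
    have hle : ∀ r : ℕ, volume Z ≤ ENNReal.ofReal (ρ ^ r) := by
      intro r
      obtain ⟨m, hm1, hm⟩ := hch r k
      have h1 : Z ⊆ {x : ℝ | 0 ≤ x ∧ x < 1 ∧ (fun b => Lead m b ∧ ∀ K : ℕ, k ≤ K → K + 1 ≤ m →
          (cnt (upTo 𝒩 K) m b : ℝ) < c * harm 𝒩 K) (pre m x)} := by
        rintro x ⟨h0, h1, h2, h3⟩
        refine ⟨h0, h1, (lead_pre hm1 x).2 h2, ?_⟩
        intro K hK hKm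
        rw [cnt_pre]
        · exact h3 K hK
        · intro N hN
          unfold upTo at hN
          rw [mem_filter, mem_Icc] at hN
          omega
      refine (measure_mono h1).trans ((vol_le m (fun b => Lead m b ∧ ∀ K : ℕ, k ≤ K →
        K + 1 ≤ m → (cnt (upTo 𝒩 K) m b : ℝ) < c * harm 𝒩 K)).trans ?_)
      apply ENNReal.ofReal_le_ofReal
      rw [div_le_iff₀ (by positivity)]
      exact hm
    have hlim : Tendsto (fun r : ℕ => ENNReal.ofReal (ρ ^ r)) atTop (nhds 0) := by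
      have := ENNReal.tendsto_ofReal (tendsto_pow_atTop_nhds_zero_of_lt_one hρ0 hρ1)
      rwa [ENNReal.ofReal_zero] at this
    exact le_antisymm (ge_of_tendsto' hlim hle) zero_le
  have hU : volume (⋃ k : ℕ, {x : ℝ | 0 ≤ x ∧ x < 1 ∧ ((pre 1 x).Coprime 10 ∧
      ∀ K : ℕ, k ≤ K → (cntx (upTo 𝒩 K) x : ℝ) < c * harm 𝒩 K)}) = 0 :=
    measure_iUnion_null hZ
  rw [ae_iff]
  refine measure_mono_null ?_ hU
  intro x hx
  simp only [Set.mem_ofPred_eq, Classical.not_imp] at hx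
  obtain ⟨h0, h1, h2, h3⟩ := hx
  rw [not_frequently, eventually_atTop] at h3
  obtain ⟨k, hk⟩ := h3
  rw [Set.mem_iUnion]
  exact ⟨k, h0, h1, h2, fun K hK => not_le.1 (hk K hK)⟩

/-- convergence part -/
theorem convN (𝒩 : Set ℕ) (hs : Summable (fun N : ℕ => 𝒩.indicator (fun N => 1 / (N : ℝ)) N)) :
    ∀ᵐ x : ℝ, 1 / 10 ≤ x → x < 1 → ∀ᶠ N in atTop, N ∈ 𝒩 → ¬ RG N (pre (N + 1) x) := by
  obtain ⟨C, hC, h⟩ := dens
  set s : ℕ → Set ℝ := fun N => {x : ℝ | 1 / 10 ≤ x ∧ x < 1 ∧ 1 ≤ N ∧ N ∈ 𝒩 ∧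
    RG N (pre (N + 1) x)} with hsdef
  have hv : ∀ N, volume (s N) ≤ ENNReal.ofReal (C * 𝒩.indicator (fun N => 1 / (N : ℝ)) N) := by
    intro N
    by_cases hN : 1 ≤ N ∧ N ∈ 𝒩
    · rw [Set.indicator_of_mem hN.2]
      have h1 : s N ⊆ {x : ℝ | 0 ≤ x ∧ x < 1 ∧ (fun b => 10 ^ N ≤ b ∧ RG N b) (pre (N + 1) x)} := by
        rintro x ⟨h0, h1, -, -, h2⟩
        exact ⟨by linarith, h1, pre_ge h0, h2⟩
      refine (measure_mono h1).trans ((vol_le (N + 1) (fun b => 10 ^ N ≤ b ∧ RG N b)).trans ?_)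
      apply ENNReal.ofReal_le_ofReal
      rw [div_le_iff₀ (by positivity), mul_one_div]
      exact h N hN.1
    · have : s N = ∅ := by
        ext x
        simp only [hsdef, Set.mem_ofPred_eq, Set.mem_empty_iff_false, iff_false]
        rintro ⟨-, -, h1, h2, -⟩
        exact hN ⟨h1, h2⟩
      rw [this, measure_empty]
      exact zero_le
  have hsum : ∑' N, volume (s N) ≠ ⊤ := by
    have h1 : ∑' N, volume (s N) ≤
        ∑' N, ENNReal.ofReal (C * 𝒩.indicator (fun N => 1 / (N : ℝ)) N) :=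
      ENNReal.tsum_le_tsum hv
    exact ne_top_of_le_ne_top (hs.mul_left C).tsum_ofReal_ne_top h1
  filter_upwards [ae_eventually_notMem hsum] with x hx h0 h1
  filter_upwards [hx, eventually_ge_atTop 1] with N hN hN1 hmem hRG
  exact hN ⟨h0, h1, hN1, hmem, hRG⟩

end Pool.Agent.H541.PP
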