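import Pool.Agent.H541.PP.Dim1
import Pool.Agent.H541.PP.Meas

/-!
# Full dimension: all levels of a lacunary sequence can be good
-/

set_option autoImplicit false

namespace Pool.Agent.H541.PP

open Set Filter Topology
open scoped ENNReal NNReal

/-- the children of a short window: good prefixes -/
lemma good_children {c : ℝ} {N₀ : ℕ}
    (hlow : ∀ N : ℕ, N₀ ≤ N → ∀ e : ℕ, 1 ≤ e → 11 * e ≤ N →
      ∀ d < 10 ^ e, (d / 10 ^ (e - 1)).Coprime 10 →
        ∃ G : Finset ℕ, c * 10 ^ (N - e) / (N : ℝ) ≤ (G.card : ℝ) ∧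
          ∀ a ∈ G, d * 10 ^ (N + 1 - e) ≤ a ∧ a < (d + 1) * 10 ^ (N + 1 - e) ∧ Good N a)
    {E D N g T : ℕ} (hE : 1 ≤ E) (hD : D < 10 ^ E) (hl : Lead E D) (hN : N₀ ≤ N) (hEg : E ≤ g)
    (hg : 11 * g ≤ N) (hT : (T : ℝ) ≤ c * 10 ^ (N - g) / (N : ℝ)) {w : ℝ}
    (hw1 : (D : ℝ) / 10 ^ E ≤ w) (hw2 : w + 2 * (1 / 10) ^ g ≤ ((D : ℝ) + 1) / 10 ^ E) :
    ∃ φ : ℕ → ℝ,
      (∀ j, j < T → w ≤ φ j ∧ φ j + (1 / 10) ^ (N + 1) / 2 ≤ w + 2 * (1 / 10) ^ g ∧
        Icc (φ j) (φ j + (1 / 10) ^ (N + 1) / 2) ⊆ {x : ℝ | Good N (pre (N + 1) x)}) ∧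
      ∀ i j : ℕ, i < j → j < T →
        φ i + (1 / 10) ^ (N + 1) / 2 + ((j : ℝ) - i) * ((1 / 10) ^ (N + 1) / 2) ≤ φ j := by
  have h10g : (0 : ℝ) < 10 ^ g := by positivity
  have h10E : (0 : ℝ) < 10 ^ E := by positivity
  have h10N : (0 : ℝ) < 10 ^ (N + 1) := by positivity
  have hw0 : 0 ≤ w := le_trans (by positivity) hw1
  set d := ⌈w * 10 ^ g⌉₊ with hd
  have hd1 : w * 10 ^ g ≤ (d : ℝ) := Nat.le_ceil _
  have hd2 : (d : ℝ) < w * 10 ^ g + 1 := Nat.ceil_lt_add_one (by positivity)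
  have hpow : (10 : ℝ) ^ g = 10 ^ E * 10 ^ (g - E) := by rw [← pow_add]; congr 1; omega
  have hinv : (1 / 10 : ℝ) ^ g = 1 / 10 ^ g := by rw [one_div_pow]
  have hinvN : (1 / 10 : ℝ) ^ (N + 1) = 1 / 10 ^ (N + 1) := by rw [one_div_pow]
  -- the cylinder `d` is inside the cylinder `D`
  have hDd : D * 10 ^ (g - E) ≤ d := by
    have h1 : (D : ℝ) * 10 ^ (g - E) ≤ (d : ℝ) := by
      refine le_trans ?_ hd1
      rw [div_le_iff₀ h10E] at hw1
      rw [hpow]
      have := mul_le_mul_of_nonneg_right hw1 (show (0 : ℝ) ≤ 10 ^ (g - E) by positivity)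
      linarith
    exact_mod_cast h1
  have hdD : d + 1 ≤ (D + 1) * 10 ^ (g - E) := by
    have h1 : (d : ℝ) + 1 < ((D : ℝ) + 1) * 10 ^ (g - E) + 1 := by
      have h2 : w * 10 ^ g + 2 ≤ ((D : ℝ) + 1) * 10 ^ (g - E) := by
        rw [le_div_iff₀ h10E, hinv] at hw2
        have h3 := mul_le_mul_of_nonneg_right hw2 (show (0 : ℝ) ≤ 10 ^ (g - E) by positivity)
        have h4 : (w + 2 * (1 / 10 ^ g)) * 10 ^ E * 10 ^ (g - E) = w * 10 ^ g + 2 := by
          rw [mul_assoc, ← hpow]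
          field_simp
        rw [h4] at h3
        exact h3
      linarith
    have h5 : ((d + 1 : ℕ) : ℝ) < (((D + 1) * 10 ^ (g - E) + 1 : ℕ) : ℝ) := by
      push_cast
      exact h1
    have h6 : d + 1 < (D + 1) * 10 ^ (g - E) + 1 := by exact_mod_cast h5
    omega
  have hdiv : d / 10 ^ (g - E) = D := Nat.div_eq_of_lt_le hDd (by omega)
  have hdlt : d < 10 ^ g := by
    calc d < (D + 1) * 10 ^ (g - E) := by omega
      _ ≤ 10 ^ E * 10 ^ (g - E) := Nat.mul_le_mul_right _ hD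
      _ = 10 ^ g := by rw [← pow_add]; congr 1; omega
  have hlead : (d / 10 ^ (g - 1)).Coprime 10 := by
    have := (lead_level hE hEg d).1 (by rw [hdiv]; exact hl)
    exact this
  obtain ⟨G, hG1, hG2⟩ := hlow N hN g (by omega) hg d hdlt hlead
  have hTG : T ≤ G.card := by exact_mod_cast hT.trans hG1
  set emb := G.orderEmbOfFin rfl with hemb
  refine ⟨fun j => if h : j < G.card then ((emb ⟨j, h⟩ : ℕ) : ℝ) / 10 ^ (N + 1) else 0, ?_, ?_⟩
  · intro j hj
    have hjG : j < G.card := by omega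
    simp only [dif_pos hjG]
    have hmem : emb ⟨j, hjG⟩ ∈ G := Finset.orderEmbOfFin_mem G rfl _
    obtain ⟨ha1, ha2, ha3⟩ := hG2 _ hmem
    set a := emb ⟨j, hjG⟩ with ha
    have hNg : (10 : ℝ) ^ (N + 1) = 10 ^ g * 10 ^ (N + 1 - g) := by
      rw [← pow_add]; congr 1; omega
    have ha1r : (d : ℝ) * 10 ^ (N + 1 - g) ≤ (a : ℝ) := by exact_mod_cast ha1
    have ha2r : (a : ℝ) + 1 ≤ ((d : ℝ) + 1) * 10 ^ (N + 1 - g) := by exact_mod_cast ha2
    refine ⟨?_, ?_, ?_⟩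
    · rw [le_div_iff₀ h10N, hNg]
      calc w * (10 ^ g * 10 ^ (N + 1 - g)) = (w * 10 ^ g) * 10 ^ (N + 1 - g) := by ring
        _ ≤ (d : ℝ) * 10 ^ (N + 1 - g) := mul_le_mul_of_nonneg_right hd1 (by positivity)
        _ ≤ (a : ℝ) := ha1r
    · rw [hinvN, hinv]
      have h1 : (a : ℝ) / 10 ^ (N + 1) + 1 / 10 ^ (N + 1) / 2 ≤ ((a : ℝ) + 1) / 10 ^ (N + 1) := by
        rw [add_div]
        have : (0 : ℝ) < 1 / 10 ^ (N + 1) := by positivity
        linarith
      have h2 : ((a : ℝ) + 1) / 10 ^ (N + 1) ≤ ((d : ℝ) + 1) / 10 ^ g := by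
        rw [div_le_div_iff₀ h10N h10g, hNg]
        calc ((a : ℝ) + 1) * 10 ^ g ≤ (((d : ℝ) + 1) * 10 ^ (N + 1 - g)) * 10 ^ g :=
              mul_le_mul_of_nonneg_right ha2r h10g.le
          _ = ((d : ℝ) + 1) * (10 ^ g * 10 ^ (N + 1 - g)) := by ring
      have h3 : ((d : ℝ) + 1) / 10 ^ g ≤ w + 2 * (1 / 10 ^ g) := by
        rw [div_le_iff₀ h10g]
        have : (w + 2 * (1 / 10 ^ g)) * 10 ^ g = w * 10 ^ g + 2 := by field_simp
        rw [this]
        linarith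
      linarith
    · intro x hx
      have hx1 : (a : ℝ) ≤ x * 10 ^ (N + 1) := by
        have := hx.1
        rw [div_le_iff₀ h10N] at this
        exact this
      have hx2 : x * 10 ^ (N + 1) < (a : ℝ) + 1 := by
        have := hx.2
        rw [hinvN] at this
        have h4 := mul_le_mul_of_nonneg_right this h10N.le
        have h5 : ((a : ℝ) / 10 ^ (N + 1) + 1 / 10 ^ (N + 1) / 2) * 10 ^ (N + 1) =
            (a : ℝ) + 1 / 2 := by field_simp
        rw [h5] at h4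
        linarith
      have hpre : pre (N + 1) x = a := by
        unfold pre
        rw [Nat.floor_eq_iff (by have : (0 : ℝ) ≤ (a : ℝ) := by positivity
                                 linarith)]
        exact ⟨hx1, hx2⟩
      change Good N (pre (N + 1) x)
      rw [hpre]
      exact ha3
  · intro i j hij hj
    have hjG : j < G.card := by omega
    have hiG : i < G.card := by omega
    simp only [dif_pos hiG, dif_pos hjG]
    have hgap : ∀ k : ℕ, ∀ (h1 : i + k < G.card), emb ⟨i, hiG⟩ + k ≤ emb ⟨i + k, h1⟩ := by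
      intro k
      induction k with
      | zero => intro h1; simp
      | succ k ih =>
        intro h1
        have h2 := ih (by omega)
        have h3 : emb ⟨i + k, by omega⟩ < emb ⟨i + (k + 1), h1⟩ := by
          apply emb.strictMono
          rw [Fin.mk_lt_mk]
          omega
        omega
    have h1 := hgap (j - i) (by omega)
    have h2 : emb ⟨i + (j - i), by omega⟩ = emb ⟨j, hjG⟩ := by
      congr 2
      omega
    rw [h2] at h1
    have h3 : ((emb ⟨i, hiG⟩ : ℕ) : ℝ) + ((j : ℝ) - i) ≤ ((emb ⟨j, hjG⟩ : ℕ) : ℝ) := by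
      have h4 : ((emb ⟨i, hiG⟩ + (j - i) : ℕ) : ℝ) ≤ ((emb ⟨j, hjG⟩ : ℕ) : ℝ) := by
        exact_mod_cast h1
      rw [Nat.cast_add, Nat.cast_sub hij.le] at h4
      exact h4
    have hji : (1 : ℝ) ≤ (j : ℝ) - i := by
      have : ((i + 1 : ℕ) : ℝ) ≤ (j : ℝ) := by exact_mod_cast hij
      push_cast at this
      linarith
    rw [hinvN]
    have h5 : ((emb ⟨i, hiG⟩ : ℕ) : ℝ) / 10 ^ (N + 1) + 1 / 10 ^ (N + 1) / 2 +
        ((j : ℝ) - i) * (1 / 10 ^ (N + 1) / 2) =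
        (((emb ⟨i, hiG⟩ : ℕ) : ℝ) + 1 / 2 + ((j : ℝ) - i) / 2) / 10 ^ (N + 1) := by
      field_simp
    rw [h5]
    apply div_le_div_of_nonneg_right _ h10N.le
    linarith

end Pool.Agent.H541.PP
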