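import Pool.Agent.H541.PP.Dim2

/-!
# Full dimension: the theorem
-/

set_option autoImplicit false

namespace Pool.Agent.H541.PP

open Set Filter Topology
open scoped ENNReal NNReal

lemma ev_large (c σ : ℝ) (hc : 0 < c) (hσ : 0 < σ) (N₀ : ℕ) : ∃ N₁ : ℕ, ∀ N : ℕ, N₁ ≤ N →
    N₀ ≤ N ∧ 2000 ≤ N ∧ 80 * (N : ℝ) / c ≤ (10 : ℝ) ^ (((N : ℝ) / 132 - 3) * σ) ∧
      4 ≤ (10 : ℝ) ^ ((N : ℝ) / 2 * σ) ∧ (N : ℝ) ≤ c * 10 ^ (N / 2) := by
  -- first growth fact
  have hr : 1 < (10 : ℝ) ^ (σ / 132) := Real.one_lt_rpow (by norm_num) (by positivity)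
  have h1 := tendsto_pow_const_div_const_pow_of_one_lt 1 hr
  have hpos1 : 0 < c * (10 : ℝ) ^ (-(3 * σ)) / 80 := by positivity
  have e1 := h1.eventually (gt_mem_nhds hpos1)
  have h2 := tendsto_pow_const_div_const_pow_of_one_lt 1 (show (1 : ℝ) < 3 by norm_num)
  have hpos2 : 0 < c / 3 := by positivity
  have e2 := h2.eventually (gt_mem_nhds hpos2)
  obtain ⟨k, hk⟩ := exists_nat_ge (2 / σ)
  obtain ⟨N₁, hN₁⟩ := eventually_atTop.1 (e1.and (e2.and (eventually_ge_atTop
    (max (max N₀ 2000) k))))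
  refine ⟨N₁, fun N hN => ?_⟩
  obtain ⟨f1, f2, f3⟩ := hN₁ N hN
  have f4 : N₀ ≤ N := (le_max_left _ _).trans ((le_max_left _ _).trans f3)
  have f5 : 2000 ≤ N := (le_max_right _ _).trans ((le_max_left _ _).trans f3)
  have f6 : k ≤ N := (le_max_right _ _).trans f3
  refine ⟨f4, f5, ?_, ?_, ?_⟩
  · rw [pow_one, div_lt_iff₀ (by positivity)] at f1
    have e3 : (10 : ℝ) ^ (((N : ℝ) / 132 - 3) * σ) =
        (10 : ℝ) ^ (-(3 * σ)) * ((10 : ℝ) ^ (σ / 132)) ^ N := by
      rw [← Real.rpow_natCast, ← Real.rpow_mul (by norm_num), ← Real.rpow_add (by norm_num)]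
      congr 1
      ring
    rw [e3, div_le_iff₀ hc]
    calc 80 * (N : ℝ) ≤ 80 * (c * (10 : ℝ) ^ (-(3 * σ)) / 80 * ((10 : ℝ) ^ (σ / 132)) ^ N) :=
          mul_le_mul_of_nonneg_left f1.le (by norm_num)
      _ = (10 : ℝ) ^ (-(3 * σ)) * ((10 : ℝ) ^ (σ / 132)) ^ N * c := by ring
  · have h3 : (1 : ℝ) ≤ (N : ℝ) / 2 * σ := by
      have : (k : ℝ) ≤ (N : ℝ) := by exact_mod_cast f6
      have h4 : 2 / σ ≤ (N : ℝ) := hk.trans this
      rw [div_le_iff₀ hσ] at h4
      linarith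
    calc (4 : ℝ) ≤ 10 ^ (1 : ℝ) := by norm_num
      _ ≤ (10 : ℝ) ^ ((N : ℝ) / 2 * σ) := Real.rpow_le_rpow_of_exponent_le (by norm_num) h3
  · rw [pow_one, div_lt_iff₀ (by positivity)] at f2
    refine f2.le.trans ?_
    rw [div_mul_eq_mul_div, div_le_iff₀ (by norm_num), mul_assoc]
    apply mul_le_mul_of_nonneg_left _ hc.le
    calc (3 : ℝ) ^ N ≤ 3 ^ (2 * (N / 2) + 1) := pow_le_pow_right₀ (by norm_num) (by omega)
      _ = (3 ^ 2) ^ (N / 2) * 3 := by rw [pow_succ, pow_mul]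
      _ ≤ 10 ^ (N / 2) * 3 := by
          apply mul_le_mul_of_nonneg_right _ (by norm_num)
          exact pow_le_pow_left₀ (by norm_num) (by norm_num) _

/-- in every cylinder, the points for which all but finitely many of the levels of a given lacunary
sequence are good form a set of dimension at least `s`, for each `s < 1` -/
theorem dimCyl {E D : ℕ} (hE : 1 ≤ E) (hD : D < 10 ^ E) (hl : Lead E D) (N : ℕ → ℕ)
    (h12 : ∀ i, 12 * N i ≤ N (i + 1)) (hN : Tendsto N atTop atTop) {s : ℝ≥0} (hs : 0 < s)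
    (hs1 : (s : ℝ) < 1) :
    (s : ℝ≥0∞) ≤ dimH {x : ℝ | (D : ℝ) / 10 ^ E ≤ x ∧ x ≤ ((D : ℝ) + 1) / 10 ^ E ∧
      ∀ᶠ i in atTop, Good (N i) (pre (N i + 1) x)} := by
  classical
  obtain ⟨c₁, hc₁, N₀, hlow₁⟩ := lowG
  set c := min c₁ 1 with hc
  have hc0 : 0 < c := lt_min hc₁ one_pos
  have hc1 : c ≤ 1 := min_le_right _ _
  have hlow : ∀ N : ℕ, N₀ ≤ N → ∀ e : ℕ, 1 ≤ e → 11 * e ≤ N →
      ∀ d < 10 ^ e, (d / 10 ^ (e - 1)).Coprime 10 →
        ∃ G : Finset ℕ, c * 10 ^ (N - e) / (N : ℝ) ≤ (G.card : ℝ) ∧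
          ∀ a ∈ G, d * 10 ^ (N + 1 - e) ≤ a ∧ a < (d + 1) * 10 ^ (N + 1 - e) ∧ Good N a := by
    intro N hN e he heN d hd hcop
    refine ⟨_, le_trans ?_ (hlow₁ N hN e he heN d hd hcop), ?_⟩
    · apply div_le_div_of_nonneg_right _ (by positivity)
      exact mul_le_mul_of_nonneg_right (min_le_left _ _) (by positivity)
    · intro a ha
      rw [Finset.mem_filter, Finset.mem_Ico] at ha
      exact ⟨ha.1.1, ha.1.2, ha.2⟩
  set σ : ℝ := 1 - (s : ℝ) with hσ
  have hσ0 : 0 < σ := by rw [hσ]; linarith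
  obtain ⟨N₁, hN₁⟩ := ev_large c σ hc0 hσ0 N₀
  obtain ⟨i₀, hi₀⟩ := (hN.eventually_ge_atTop (max N₁ (12 * E))).exists
  -- the shifted sequences
  set n' : ℕ → ℕ := fun i => N (i₀ + i) with hn'
  have hn12 : ∀ i, 12 * n' i ≤ n' (i + 1) := fun i => h12 (i₀ + i)
  have hn0 : N₁ ≤ n' 0 := (le_max_left _ _).trans hi₀
  have hnE : 12 * E ≤ n' 0 := (le_max_right _ _).trans hi₀
  have hnmono : ∀ i, n' 0 ≤ n' i := by
    intro i
    induction i with
    | zero => exact le_rfl
    | succ i ih => have := hn12 i; omega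
  have hnN : ∀ i, N₁ ≤ n' i := fun i => hn0.trans (hnmono i)
  set M : ℕ → ℕ := fun i => Nat.casesOn i E (fun k => n' k + 1) with hM
  have hM0 : M 0 = E := rfl
  have hMs : ∀ i, M (i + 1) = n' i + 1 := fun i => rfl
  have hM12 : ∀ i, 12 * M i ≤ n' i + 12 := by
    intro i
    rcases i with _ | i
    · rw [hM0]; omega
    · rw [hMs]; have := hn12 i; omega
  set g : ℕ → ℕ := fun i => n' i / 11 with hg
  have hg11 : ∀ i, 11 * g i ≤ n' i := fun i => Nat.mul_div_le _ _
  have hg11' : ∀ i, n' i < 11 * g i + 11 := by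
    intro i
    have := Nat.lt_mul_div_succ (n' i) (show 0 < 11 by norm_num)
    rw [hg]
    simp only
    omega
  have h2000 : ∀ i, 2000 ≤ n' i := fun i => (hN₁ _ (hnN i)).2.1
  have hMg : ∀ i, M i + 10 ≤ g i := by
    intro i
    have h1 := hM12 i
    have h2 := hg11' i
    have h3 := h2000 i
    omega
  have hEg : ∀ i, E ≤ g i := by
    intro i
    have h1 := hnmono i
    have h2 := hg11' i
    have h3 := h2000 i
    omega
  set ell : ℕ → ℝ := fun n => if n % 2 = 1 then 2 * (1 / 10 : ℝ) ^ g (n / 2)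
    else (1 / 10 : ℝ) ^ M (n / 2) / 2 with hell
  have ell_even : ∀ i, ell (2 * i) = (1 / 10 : ℝ) ^ M i / 2 := by
    intro i
    rw [hell]
    simp only
    rw [if_neg (by omega), show 2 * i / 2 = i by omega]
  have ell_odd : ∀ i, ell (2 * i + 1) = 2 * (1 / 10 : ℝ) ^ g i := by
    intro i
    rw [hell]
    simp only
    rw [if_pos (by omega), show (2 * i + 1) / 2 = i by omega]
  set κ : ℕ → ℝ := fun n => if n % 2 = 1 then c / (80 * (n' (n / 2) : ℝ)) else 1 / 4 with hκ
  have κ_even : ∀ i, κ (2 * i) = 1 / 4 := by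
    intro i
    rw [hκ]
    simp only
    rw [if_neg (by omega)]
  have κ_odd : ∀ i, κ (2 * i + 1) = c / (80 * (n' i : ℝ)) := by
    intro i
    rw [hκ]
    simp only
    rw [if_pos (by omega), show (2 * i + 1) / 2 = i by omega]
  set T : ℕ → ℕ := fun n => if n % 2 = 1 then
    ⌊c * 10 ^ (n' (n / 2) - g (n / 2)) / (n' (n / 2) : ℝ)⌋₊
    else ⌊ell n / (2 * ell (n + 1))⌋₊ with hT
  have T_even : ∀ i, T (2 * i) = ⌊ell (2 * i) / (2 * ell (2 * i + 1))⌋₊ := by
    intro i
    rw [hT]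
    simp only
    rw [if_neg (by omega)]
  have T_odd : ∀ i, T (2 * i + 1) = ⌊c * 10 ^ (n' i - g i) / (n' i : ℝ)⌋₊ := by
    intro i
    rw [hT]
    simp only
    rw [if_pos (by omega), show (2 * i + 1) / 2 = i by omega]
  set A : ℕ → Set ℝ := fun n => if n % 2 = 1 then
    {x : ℝ | Good (n' (n / 2)) (pre (n' (n / 2) + 1) x)} else univ with hA
  have A_even : ∀ i, A (2 * i) = univ := by
    intro i
    rw [hA]
    simp only
    rw [if_neg (by omega)]
  have A_odd : ∀ i, A (2 * i + 1) = {x : ℝ | Good (n' i) (pre (n' i + 1) x)} := by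
    intro i
    rw [hA]
    simp only
    rw [if_pos (by omega), show (2 * i + 1) / 2 = i by omega]
  have hnpos : ∀ i, (0 : ℝ) < (n' i : ℝ) := by
    intro i
    have : 0 < n' i := by have := h2000 i; omega
    exact_mod_cast this
  have hell0 : ∀ n, 0 < ell n := by
    intro n
    rcases Nat.even_or_odd' n with ⟨i, rfl | rfl⟩
    · rw [ell_even]; positivity
    · rw [ell_odd]; positivity
  have hpw : ∀ k : ℕ, (1 / 10 : ℝ) ^ k = 1 / 10 ^ k := fun k => by rw [one_div_pow]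
  -- the ratios
  have ratio_even : ∀ i, ell (2 * i) / ell (2 * i + 1) = 10 ^ (g i - M i) / 4 := by
    intro i
    rw [ell_even, ell_odd, hpw, hpw]
    have h1 : (10 : ℝ) ^ g i = 10 ^ M i * 10 ^ (g i - M i) := by
      rw [← pow_add]; congr 1; have := hMg i; omega
    rw [h1]
    field_simp
    norm_num
  have ratio_odd : ∀ i, ell (2 * i + 1) / ell (2 * (i + 1)) = 4 * 10 ^ (n' i + 1 - g i) := by
    intro i
    rw [ell_even, ell_odd, hMs, hpw, hpw]
    have h1 : (10 : ℝ) ^ (n' i + 1) = 10 ^ g i * 10 ^ (n' i + 1 - g i) := by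
      rw [← pow_add]; congr 1; have := hg11 i; omega
    rw [h1]
    field_simp
    norm_num
  have hgM : ∀ i, (n' i : ℝ) / 132 - 3 ≤ ((g i - M i : ℕ) : ℝ) - 1 := by
    intro i
    have h1 : (12 : ℝ) * (M i : ℝ) ≤ (n' i : ℝ) + 12 := by exact_mod_cast hM12 i
    have h2 : (n' i : ℝ) ≤ 11 * (g i : ℝ) + 10 := by
      have := hg11' i
      have h3 : n' i ≤ 11 * g i + 10 := by omega
      exact_mod_cast h3
    rw [Nat.cast_sub (by have := hMg i; omega)]
    linarith
  have hsub : {α : ℝ | (D : ℝ) / 10 ^ E ≤ α ∧ α ≤ ((D : ℝ) + 1) / 10 ^ E ∧ ∀ n, α ∈ A n} ⊆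
      {x : ℝ | (D : ℝ) / 10 ^ E ≤ x ∧ x ≤ ((D : ℝ) + 1) / 10 ^ E ∧
        ∀ᶠ i in atTop, Good (N i) (pre (N i + 1) x)} := by
    rintro x ⟨h1, h2, h3⟩
    refine ⟨h1, h2, eventually_atTop.2 ⟨i₀, fun i hi => ?_⟩⟩
    obtain ⟨k, rfl⟩ := Nat.exists_eq_add_of_le hi
    have h4 := h3 (2 * k + 1)
    rw [A_odd] at h4
    exact h4
  refine le_trans ?_ (dimH_mono hsub)
  refine dim_steps hs hs1.le ell κ T A hell0 ?_ ?_ ?_ ?_ ?_ ?_ ?_
  · -- length of the first interval
    have := ell_even 0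
    rw [Nat.mul_zero] at this
    rw [this, hM0, hpw]
    have h1 : ((D : ℝ) + 1) / 10 ^ E - (D : ℝ) / 10 ^ E = 1 / 10 ^ E := by ring
    rw [h1]
    have : (0 : ℝ) < 1 / 10 ^ E := by positivity
    linarith
  · intro n
    rcases Nat.even_or_odd' n with ⟨i, rfl | rfl⟩
    · rw [κ_even]; norm_num
    · rw [κ_odd]; have := hnpos i; positivity
  · intro n
    rcases Nat.even_or_odd' n with ⟨i, rfl | rfl⟩
    · rw [κ_even]; norm_num
    · rw [κ_odd, div_le_one (by have := hnpos i; positivity)]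
      have : (1 : ℝ) ≤ (n' i : ℝ) := by
        have h3 : 1 ≤ n' i := by have := h2000 i; omega
        exact_mod_cast h3
      linarith
  · -- the lengths are at least halved
    intro n
    rcases Nat.even_or_odd' n with ⟨i, rfl | rfl⟩
    · have h1 := ratio_even i
      rw [div_eq_iff (hell0 _).ne'] at h1
      rw [h1]
      have h2 : (8 : ℝ) ≤ 10 ^ (g i - M i) := by
        calc (8 : ℝ) ≤ 10 ^ 1 := by norm_num
          _ ≤ 10 ^ (g i - M i) := pow_le_pow_right₀ (by norm_num) (by have := hMg i; omega)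
      have := hell0 (2 * i + 1)
      nlinarith
    · have h1 := ratio_odd i
      rw [div_eq_iff (hell0 _).ne'] at h1
      have e1 : 2 * i + 1 + 1 = 2 * (i + 1) := by ring
      rw [e1, h1]
      have h2 : (1 : ℝ) ≤ 10 ^ (n' i + 1 - g i) := one_le_pow₀ (by norm_num)
      have := hell0 (2 * (i + 1))
      nlinarith
  · -- the numbers of children
    intro n
    rcases Nat.even_or_odd' n with ⟨i, rfl | rfl⟩
    · rw [κ_even, T_even]
      have h1 := ratio_even i
      have hp := hell0 (2 * i + 1)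
      have hY : 1 ≤ ell (2 * i) / (2 * ell (2 * i + 1)) := by
        rw [show ell (2 * i) / (2 * ell (2 * i + 1)) = ell (2 * i) / ell (2 * i + 1) / 2 by
          rw [div_div, mul_comm (ell (2 * i + 1)) 2], h1]
        have h2 : (8 : ℝ) ≤ 10 ^ (g i - M i) := by
          calc (8 : ℝ) ≤ 10 ^ 1 := by norm_num
            _ ≤ 10 ^ (g i - M i) := pow_le_pow_right₀ (by norm_num) (by have := hMg i; omega)
        linarith
      have hfl : ell (2 * i) / (2 * ell (2 * i + 1)) / 2 ≤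
          (⌊ell (2 * i) / (2 * ell (2 * i + 1))⌋₊ : ℝ) := by
        have h3 := Nat.lt_floor_add_one (ell (2 * i) / (2 * ell (2 * i + 1)))
        have h4 : (1 : ℝ) ≤ (⌊ell (2 * i) / (2 * ell (2 * i + 1))⌋₊ : ℝ) := by
          exact_mod_cast (Nat.one_le_floor_iff _).2 hY
        linarith
      calc 1 / 4 * ell (2 * i) = ell (2 * i) / (2 * ell (2 * i + 1)) / 2 * ell (2 * i + 1) := by
            field_simp; ring
        _ ≤ _ := mul_le_mul_of_nonneg_right hfl hp.le
    · rw [κ_odd, T_odd]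
      have hp := hnpos i
      have e1 : 2 * i + 1 + 1 = 2 * (i + 1) := by ring
      have h1 := ratio_odd i
      rw [div_eq_iff (hell0 _).ne'] at h1
      rw [e1, h1]
      set X := c * 10 ^ (n' i - g i) / (n' i : ℝ) with hX
      have hX1 : 1 ≤ X := by
        rw [hX, le_div_iff₀ hp, one_mul]
        refine (hN₁ _ (hnN i)).2.2.2.2.trans ?_
        apply mul_le_mul_of_nonneg_left _ hc0.le
        apply pow_le_pow_right₀ (by norm_num)
        have := hg11 i
        omega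
      have hfl : X / 2 ≤ (⌊X⌋₊ : ℝ) := by
        have h3 := Nat.lt_floor_add_one X
        have h4 : (1 : ℝ) ≤ (⌊X⌋₊ : ℝ) := by exact_mod_cast (Nat.one_le_floor_iff _).2 hX1
        linarith
      have h5 : (10 : ℝ) ^ (n' i + 1 - g i) = 10 ^ (n' i - g i) * 10 := by
        rw [← pow_succ]; congr 1; have := hg11 i; omega
      calc c / (80 * (n' i : ℝ)) * (4 * 10 ^ (n' i + 1 - g i) * ell (2 * (i + 1)))
          = X / 2 * ell (2 * (i + 1)) := by
            rw [hX, h5]; field_simp; ring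
        _ ≤ _ := mul_le_mul_of_nonneg_right hfl (hell0 _).le
  · -- growth of the potential
    intro n
    rcases Nat.even_or_odd' n with ⟨i, rfl | rfl⟩
    · rw [κ_odd, ratio_even i]
      have hp := hnpos i
      have h3 := (hN₁ _ (hnN i)).2.2.1
      have h4 : (10 : ℝ) ^ (((n' i : ℝ) / 132 - 3) * σ) ≤ (10 ^ (g i - M i) / 4 : ℝ) ^ σ := by
        rw [Real.rpow_mul (by norm_num)]
        apply Real.rpow_le_rpow (by positivity) _ hσ0.le
        calc (10 : ℝ) ^ ((n' i : ℝ) / 132 - 3) ≤ (10 : ℝ) ^ (((g i - M i : ℕ) : ℝ) - 1) :=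
              Real.rpow_le_rpow_of_exponent_le (by norm_num) (hgM i)
          _ = 10 ^ (g i - M i) / 10 := by
              rw [Real.rpow_sub (by norm_num), Real.rpow_natCast, Real.rpow_one]
          _ ≤ 10 ^ (g i - M i) / 4 := by
              apply div_le_div_of_nonneg_left (by positivity) (by norm_num) (by norm_num)
      have h5 := h3.trans h4
      rw [div_le_iff₀ hc0] at h5
      rw [div_mul_eq_mul_div, le_div_iff₀ (by positivity), one_mul]
      linarith
    · have e1 : 2 * i + 1 + 1 = 2 * (i + 1) := by ring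
      rw [e1, κ_even, ratio_odd i]
      have h3 := (hN₁ _ (hnN i)).2.2.2.1
      have h4 : (10 : ℝ) ^ ((n' i : ℝ) / 2 * σ) ≤ (4 * 10 ^ (n' i + 1 - g i) : ℝ) ^ σ := by
        rw [Real.rpow_mul (by norm_num)]
        apply Real.rpow_le_rpow (by positivity) _ hσ0.le
        have h6 : (n' i : ℝ) / 2 ≤ ((n' i + 1 - g i : ℕ) : ℝ) := by
          have h7 : n' i ≤ 2 * (n' i + 1 - g i) := by have := hg11 i; omega
          have h8 : (n' i : ℝ) ≤ 2 * ((n' i + 1 - g i : ℕ) : ℝ) := by exact_mod_cast h7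
          linarith
        calc (10 : ℝ) ^ ((n' i : ℝ) / 2) ≤ (10 : ℝ) ^ ((n' i + 1 - g i : ℕ) : ℝ) :=
              Real.rpow_le_rpow_of_exponent_le (by norm_num) h6
          _ = 10 ^ (n' i + 1 - g i) := Real.rpow_natCast _ _
          _ ≤ 4 * 10 ^ (n' i + 1 - g i) := by
              have : (0 : ℝ) < 10 ^ (n' i + 1 - g i) := by positivity
              linarith
      linarith [h3.trans h4]
  · -- the children
    intro n w hw1 hw2
    rcases Nat.even_or_odd' n with ⟨i, rfl | rfl⟩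
    · rw [T_even, A_even]
      have hp := hell0 (2 * i + 1)
      refine ⟨fun j => w + 2 * (j : ℝ) * ell (2 * i + 1), ?_, ?_⟩
      · intro j hj
        refine ⟨?_, ?_, subset_univ _⟩
        · have : (0 : ℝ) ≤ 2 * (j : ℝ) * ell (2 * i + 1) := by positivity
          linarith
        · have h1 : ((j + 1 : ℕ) : ℝ) ≤ ell (2 * i) / (2 * ell (2 * i + 1)) := by
            have h2 : j + 1 ≤ ⌊ell (2 * i) / (2 * ell (2 * i + 1))⌋₊ := hj
            exact (Nat.cast_le.2 h2).trans (Nat.floor_le (by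
              have := hell0 (2 * i)
              positivity))
          rw [le_div_iff₀ (by positivity)] at h1
          push_cast at h1
          nlinarith
      · intro i' j hij hj
        have hji : (1 : ℝ) ≤ (j : ℝ) - i' := by
          have : ((i' + 1 : ℕ) : ℝ) ≤ (j : ℝ) := by exact_mod_cast hij
          push_cast at this
          linarith
        nlinarith
    · rw [T_odd, A_odd]
      have e1 : 2 * i + 1 + 1 = 2 * (i + 1) := by ring
      rw [e1, ell_even, hMs]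
      rw [ell_odd] at hw2
      rw [ell_odd]
      exact good_children hlow hE hD hl (hN₁ _ (hnN i)).1 (hEg i) (hg11 i)
        (Nat.floor_le (by have := hnpos i; positivity)) hw1 hw2

end Pool.Agent.H541.PP
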