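import Pool.Agent.H541.PP.Meas

/-!
# The two bounds for all large `K`
-/

set_option autoImplicit false

namespace Pool.Agent.H541.PP

open Finset Filter MeasureTheory

lemma ev_pow (a q : ℕ) : ∃ T : ℕ, ∀ t, T ≤ t → a + q * (t + 1) ≤ 2 ^ t := by
  have h := (tendsto_pow_const_div_const_pow_of_one_lt 1 (show (1 : ℝ) < 2 by norm_num))
  have h2 : (0 : ℝ) < 1 / ((a : ℝ) + 2 * q + 1) := by positivity
  have h3 := (h.eventually (gt_mem_nhds h2)).and (eventually_ge_atTop 1)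
  obtain ⟨T, hT⟩ := eventually_atTop.1 h3
  refine ⟨T, fun t ht => ?_⟩
  obtain ⟨h4, h5⟩ := hT t ht
  rw [pow_one, div_lt_div_iff₀ (by positivity) (by positivity)] at h4
  have h6 : (1 : ℝ) ≤ (t : ℝ) := by exact_mod_cast h5
  have h7 : ((a + q * (t + 1) : ℕ) : ℝ) ≤ ((2 ^ t : ℕ) : ℝ) := by
    push_cast
    have ha : (0 : ℝ) ≤ (a : ℝ) := by positivity
    have hq : (0 : ℝ) ≤ (q : ℝ) := by positivity
    nlinarith [mul_le_mul_of_nonneg_left h6 ha, mul_le_mul_of_nonneg_left h6 hq]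
  exact_mod_cast h7

lemma ev_log (a q : ℕ) : ∃ J : ℕ, ∀ j, J ≤ j → a + q * (Nat.log 2 j + 1) ≤ j := by
  obtain ⟨T, hT⟩ := ev_pow a q
  refine ⟨2 ^ T, fun j hj => ?_⟩
  have h1 : T ≤ Nat.log 2 j := Nat.le_log_of_pow_le (by norm_num) hj
  have hj0 : j ≠ 0 := by
    have : 0 < 2 ^ T := by positivity
    omega
  exact (hT _ h1).trans (Nat.pow_log_le_self 2 hj0)

/-- lower bound for all large `K` -/
theorem lowAll : ∃ A : ℕ, ∀ᵐ x : ℝ, 0 ≤ x → x < 1 → (pre 1 x).Coprime 10 →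
    ∀ᶠ K : ℕ in atTop, Real.log (K : ℝ) / Real.log (Real.log (K : ℝ)) ^ A ≤
      (cntx (Icc 1 K) x : ℝ) := by
  classical
  obtain ⟨c, hc, ρ, hρ0, hρ1, J₀, hch⟩ := chainQ
  obtain ⟨q, hq⟩ := exists_pow_lt_of_lt_one (show (0 : ℝ) < 1 / 4 by norm_num) hρ1
  refine ⟨2 * q + 1, ?_⟩
  set r : ℕ → ℕ := fun j => q * (Nat.log 2 j + 1) with hr
  set s : ℕ → Set ℝ := fun j => {x : ℝ | 0 ≤ x ∧ x < 1 ∧ ((1 ≤ j ∧ J₀ + r j ≤ j) ∧
    (pre 1 x).Coprime 10 ∧ ∀ i, j - r j < i → i ≤ j →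
      (cntx (II i) x : ℝ) < c * Real.log (kk i : ℝ))} with hsdef
  have hv : ∀ j, volume (s j) ≤ ENNReal.ofReal (1 / (j : ℝ) ^ 2) := by
    intro j
    by_cases hj : 1 ≤ j ∧ J₀ + r j ≤ j
    · have hmm1 : 1 ≤ mm j := by unfold mm; omega
      have h1 : s j ⊆ {x : ℝ | 0 ≤ x ∧ x < 1 ∧ (fun b => Lead (mm j) b ∧ ∀ i, j - r j < i →
          i ≤ j → (cnt (II i) (mm j) b : ℝ) < c * Real.log (kk i : ℝ)) (pre (mm j) x)} := by
        rintro x ⟨h0, h1, -, h2, h3⟩
        refine ⟨h0, h1, (lead_pre hmm1 x).2 h2, ?_⟩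
        intro i hi1 hi2
        rw [cnt_pre]
        · exact h3 i hi1 hi2
        · intro N hN
          unfold II at hN
          rw [mem_Icc] at hN
          have h3 : kk i ^ 2 ≤ kk j ^ 2 := Nat.pow_le_pow_left (kk_mono hi2) 2
          unfold mm
          omega
      refine (measure_mono h1).trans ((vol_le (mm j) (fun b => Lead (mm j) b ∧ ∀ i, j - r j < i →
          i ≤ j → (cnt (II i) (mm j) b : ℝ) < c * Real.log (kk i : ℝ))).trans ?_)
      apply ENNReal.ofReal_le_ofReal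
      rw [div_le_iff₀ (by positivity)]
      have h2 := hch (j - r j) (by omega) (r j)
      have e1 : j - r j + r j = j := by omega
      rw [e1] at h2
      refine h2.trans ?_
      apply mul_le_mul_of_nonneg_right _ (by positivity)
      have e2 : ρ ^ r j = (ρ ^ q) ^ (Nat.log 2 j + 1) := by rw [hr, ← pow_mul]
      rw [e2]
      have hj0 : (0 : ℝ) < (j : ℝ) := by exact_mod_cast hj.1
      calc (ρ ^ q) ^ (Nat.log 2 j + 1) ≤ (1 / 4) ^ (Nat.log 2 j + 1) :=
            pow_le_pow_left₀ (by positivity) hq.le _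
        _ = 1 / ((2 : ℝ) ^ (Nat.log 2 j + 1)) ^ 2 := by
            rw [← pow_mul, mul_comm, pow_mul, one_div_pow]
            norm_num
        _ ≤ 1 / (j : ℝ) ^ 2 := by
            apply one_div_le_one_div_of_le (by positivity)
            apply pow_le_pow_left₀ hj0.le
            have := Nat.lt_pow_succ_log_self (show 1 < 2 by norm_num) j
            exact_mod_cast this.le
    · have : s j = ∅ := by
        ext x
        simp only [hsdef, Set.mem_ofPred_eq, Set.mem_empty_iff_false, iff_false]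
        rintro ⟨-, -, h1, -⟩
        exact hj h1
      rw [this, measure_empty]
      exact zero_le
  have hsum : ∑' j, volume (s j) ≠ ⊤ := by
    have h1 : ∑' j, volume (s j) ≤ ∑' j : ℕ, ENNReal.ofReal (1 / (j : ℝ) ^ 2) :=
      ENNReal.tsum_le_tsum hv
    exact ne_top_of_le_ne_top
      ((Real.summable_one_div_nat_pow.2 (by norm_num)).tsum_ofReal_ne_top) h1
  obtain ⟨J₁, hJ₁⟩ := ev_log J₀ q
  filter_upwards [ae_eventually_notMem hsum] with x hx h0 h1 h2
  obtain ⟨J₂, hJ₂⟩ := eventually_atTop.1 hx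
  obtain ⟨J₃, hJ₃⟩ := exists_nat_ge (6 * 4 ^ q / c)
  set J := max (max J₁ J₂) (max J₃ 1) with hJ
  refine eventually_atTop.2 ⟨2 ^ (2 * 3 ^ J), fun K hK => ?_⟩
  set L := Nat.log 2 K with hL
  have hL1 : 2 * 3 ^ J ≤ L := Nat.le_log_of_pow_le (by norm_num) hK
  set n := L / 2 with hn
  have hn1 : 3 ^ J ≤ n := by omega
  have h3J : 0 < 3 ^ J := by positivity
  set j := Nat.log 3 n with hj
  have hjJ : J ≤ j := Nat.le_log_of_pow_le (by norm_num) hn1
  have hn0 : n ≠ 0 := by omega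
  have hK0 : K ≠ 0 := by
    have : 0 < 2 ^ (2 * 3 ^ J) := by positivity
    omega
  have hjn : 3 ^ j ≤ n := Nat.pow_log_le_self 3 hn0
  have hnj : n < 3 ^ (j + 1) := Nat.lt_pow_succ_log_self (by norm_num) n
  have hKL : 2 ^ L ≤ K := Nat.pow_log_le_self 2 hK0
  have hKL2 : K < 2 ^ (L + 1) := Nat.lt_pow_succ_log_self (by norm_num) K
  have hkkK : kk j ^ 2 ≤ K := by
    refine le_trans ?_ hKL
    unfold kk
    rw [← pow_mul]
    exact Nat.pow_le_pow_right (by norm_num) (by omega)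
  have hlog2 : (0 : ℝ) < Real.log 2 := Real.log_pos (by norm_num)
  have hKr : (0 : ℝ) < (K : ℝ) := by exact_mod_cast Nat.pos_of_ne_zero hK0
  have hlogK_up : Real.log (K : ℝ) ≤ 6 * 3 ^ j * Real.log 2 := by
    have h5 : (K : ℝ) ≤ 2 ^ (2 * 3 ^ (j + 1)) := by
      have : K ≤ 2 ^ (2 * 3 ^ (j + 1)) :=
        hKL2.le.trans (Nat.pow_le_pow_right (by norm_num) (by omega))
      exact_mod_cast this
    have h6 := Real.log_le_log hKr h5
    rw [Real.log_pow] at h6
    push_cast at h6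
    rw [pow_succ] at h6
    linarith
  have hlogK_low : (3 : ℝ) ^ j ≤ Real.log (K : ℝ) := by
    have h5 : (2 : ℝ) ^ (2 * 3 ^ j) ≤ (K : ℝ) := by
      have : 2 ^ (2 * 3 ^ j) ≤ K := (Nat.pow_le_pow_right (by norm_num) (by omega)).trans hKL
      exact_mod_cast this
    have h6 := Real.log_le_log (by positivity) h5
    rw [Real.log_pow] at h6
    push_cast at h6
    have h7 : (1 : ℝ) / 2 < Real.log 2 := by
      have := Real.log_two_gt_d9
      linarith
    have h8 : (0 : ℝ) < 3 ^ j := by positivity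
    nlinarith
  have hloglog : (j : ℝ) ≤ Real.log (Real.log (K : ℝ)) := by
    have h5 := Real.log_le_log (by positivity) hlogK_low
    rw [Real.log_pow] at h5
    have h6 : (1 : ℝ) ≤ Real.log 3 := by
      rw [Real.le_log_iff_exp_le (by norm_num)]
      have := Real.exp_one_lt_d9
      linarith
    have h7 : (0 : ℝ) ≤ (j : ℝ) := by positivity
    nlinarith
  have hj1 : 1 ≤ j := le_trans (by rw [hJ]; exact (le_max_right _ _).trans (le_max_right _ _)) hjJ
  have hjJ₁ : J₁ ≤ j := le_trans (by rw [hJ]; exact (le_max_left _ _).trans (le_max_left _ _)) hjJ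
  have hjJ₂ : J₂ ≤ j := le_trans (by rw [hJ]; exact (le_max_right _ _).trans (le_max_left _ _)) hjJ
  have hjJ₃ : J₃ ≤ j := le_trans (by rw [hJ]; exact (le_max_left _ _).trans (le_max_right _ _)) hjJ
  have hrj : J₀ + r j ≤ j := hJ₁ j hjJ₁
  obtain ⟨i, hi1, hi2, hi3⟩ : ∃ i, j - r j < i ∧ i ≤ j ∧
      c * Real.log (kk i : ℝ) ≤ (cntx (II i) x : ℝ) := by
    by_contra hcon
    push Not at hcon
    exact hJ₂ j hjJ₂ ⟨h0, h1, ⟨hj1, hrj⟩, h2, hcon⟩
  have hII : II i ⊆ Icc 1 K := by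
    intro N hN
    unfold II at hN
    rw [mem_Icc] at hN
    have h3 : kk i ^ 2 ≤ kk j ^ 2 := Nat.pow_le_pow_left (kk_mono hi2) 2
    have h4 : 1 ≤ kk i := by unfold kk; exact Nat.one_le_two_pow
    rw [mem_Icc]
    omega
  have hcm : (cntx (II i) x : ℝ) ≤ (cntx (Icc 1 K) x : ℝ) := by exact_mod_cast cntx_mono hII x
  refine le_trans ?_ (hi3.trans hcm)
  rw [log_kk]
  have hjr : (1 : ℝ) ≤ (j : ℝ) := by exact_mod_cast hj1
  have hLLpos : (0 : ℝ) < Real.log (Real.log (K : ℝ)) := by linarith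
  rw [div_le_iff₀ (by positivity)]
  have h3r : (3 : ℝ) ^ r j ≤ 4 ^ q * (j : ℝ) ^ (2 * q) := by
    have hlogj : (2 : ℝ) ^ (Nat.log 2 j) ≤ (j : ℝ) := by
      exact_mod_cast Nat.pow_log_le_self 2 (show j ≠ 0 by omega)
    calc (3 : ℝ) ^ r j ≤ 4 ^ r j := pow_le_pow_left₀ (by norm_num) (by norm_num) _
      _ = ((2 * 2 ^ (Nat.log 2 j)) ^ 2) ^ q := by
          rw [hr]
          simp only
          rw [← pow_succ', ← pow_mul, ← pow_mul, show (4 : ℝ) = 2 ^ 2 by norm_num, ← pow_mul]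
          congr 1
          ring
      _ ≤ ((2 * (j : ℝ)) ^ 2) ^ q := by
          apply pow_le_pow_left₀ (by positivity)
          apply pow_le_pow_left₀ (by positivity)
          linarith
      _ = 4 ^ q * (j : ℝ) ^ (2 * q) := by
          rw [mul_pow, mul_pow, pow_mul]
          norm_num
  have h3j : (3 : ℝ) ^ j ≤ 3 ^ i * 3 ^ r j := by
    rw [← pow_add]
    exact pow_le_pow_right₀ (by norm_num) (by omega)
  have hq6 : 6 * 4 ^ q ≤ c * (j : ℝ) := by
    have h5 : 6 * 4 ^ q / c ≤ (j : ℝ) := hJ₃.trans (by exact_mod_cast hjJ₃)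
    rw [div_le_iff₀ hc] at h5
    linarith
  calc Real.log (K : ℝ) ≤ 6 * 3 ^ j * Real.log 2 := hlogK_up
    _ ≤ 6 * (3 ^ i * (4 ^ q * (j : ℝ) ^ (2 * q))) * Real.log 2 := by
        apply mul_le_mul_of_nonneg_right _ hlog2.le
        apply mul_le_mul_of_nonneg_left _ (by norm_num)
        exact h3j.trans (mul_le_mul_of_nonneg_left h3r (by positivity))
    _ = (6 * 4 ^ q) * (3 ^ i * Real.log 2 * (j : ℝ) ^ (2 * q)) := by ring
    _ ≤ (c * (j : ℝ)) * (3 ^ i * Real.log 2 * (j : ℝ) ^ (2 * q)) :=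
        mul_le_mul_of_nonneg_right hq6 (by positivity)
    _ = c * (3 ^ i * Real.log 2) * (j : ℝ) ^ (2 * q + 1) := by ring
    _ ≤ c * (3 ^ i * Real.log 2) * Real.log (Real.log (K : ℝ)) ^ (2 * q + 1) := by
        apply mul_le_mul_of_nonneg_left _ (by positivity)
        exact pow_le_pow_left₀ (by positivity) hloglog _

end Pool.Agent.H541.PP
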