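import Pool.Agent.H541.PP.Meas2

/-!
# The upper bound for all large `K`
-/

set_option autoImplicit false

namespace Pool.Agent.H541.PP

open Finset Filter MeasureTheory

open Classical in
/-- the number of `N ∈ I` for which the mirror palindrome of the first `N + 1` digits of `x` is
rough -/
noncomputable def cntR (I : Finset ℕ) (x : ℝ) : ℕ :=
  (I.filter (fun N => RG N (pre (N + 1) x))).card

lemma cntR_mono {I J : Finset ℕ} (h : I ⊆ J) (x : ℝ) : cntR I x ≤ cntR J x := by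
  classical
  unfold cntR
  apply Finset.card_le_card
  intro N hN
  rw [mem_filter] at hN ⊢
  exact ⟨h hN.1, hN.2⟩

lemma TT_pre (K : ℕ) (x : ℝ) : TT K 0 (pre (K + 1) x) = cntR (Icc 1 K) x := by
  classical
  unfold TT cntR
  have e1 : Ioc 0 K = Icc 1 K := by
    ext N
    simp only [mem_Ioc, mem_Icc]
    omega
  rw [e1]
  congr 1
  apply Finset.filter_congr
  intro N hN
  rw [mem_Icc] at hN
  have e2 : K - N = K + 1 - (N + 1) := by omega
  rw [e2, pre_div (by omega)]

/-- upper bound for all large `K` -/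
theorem upAll : ∃ A : ℝ, 0 < A ∧ ∀ᵐ x : ℝ, 1 / 10 ≤ x → x < 1 →
    ∀ᶠ K : ℕ in atTop, (cntR (Icc 1 K) x : ℝ) ≤
      A * (Real.log (K : ℝ) * Real.log (Real.log (Real.log (K : ℝ)))) := by
  obtain ⟨C, hC, htail⟩ := tail
  refine ⟨16 * C, by positivity, ?_⟩
  set Q : ℕ → ℕ := fun j => 2 ^ 2 ^ j with hQ
  have hQ1 : ∀ j, 1 ≤ Q j := fun j => Nat.one_le_two_pow
  set s : ℕ → Set ℝ := fun j => {x : ℝ | 1 / 10 ≤ x ∧ x < 1 ∧ 1 ≤ j ∧
    C * (1 + Real.log (Q j : ℝ)) * Real.log (j : ℝ) ≤ (cntR (Icc 1 (Q j)) x : ℝ)} with hsdef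
  have hv : ∀ j, volume (s j) ≤ ENNReal.ofReal (2 / (j : ℝ) ^ 2) := by
    intro j
    by_cases hj : 1 ≤ j
    · have h1 : s j ⊆ {x : ℝ | 0 ≤ x ∧ x < 1 ∧ (fun b => 10 ^ Q j ≤ b ∧
          C * (1 + Real.log (Q j : ℝ)) * Real.log (j : ℝ) ≤ (TT (Q j) 0 b : ℝ))
            (pre (Q j + 1) x)} := by
        rintro x ⟨h0, h1, -, h2⟩
        refine ⟨by linarith, h1, pre_ge h0, ?_⟩
        rw [TT_pre]
        exact h2
      refine (measure_mono h1).trans ((vol_le (Q j + 1) (fun b => 10 ^ Q j ≤ b ∧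
          C * (1 + Real.log (Q j : ℝ)) * Real.log (j : ℝ) ≤ (TT (Q j) 0 b : ℝ))).trans ?_)
      apply ENNReal.ofReal_le_ofReal
      rw [div_le_iff₀ (by positivity)]
      exact htail (Q j) j (hQ1 j) hj
    · have : s j = ∅ := by
        ext x
        simp only [hsdef, Set.mem_ofPred_eq, Set.mem_empty_iff_false, iff_false]
        rintro ⟨-, -, h1, -⟩
        exact hj h1
      rw [this, measure_empty]
      exact zero_le
  have hsum : ∑' j, volume (s j) ≠ ⊤ := by
    have h1 : ∑' j, volume (s j) ≤ ∑' j : ℕ, ENNReal.ofReal (2 / (j : ℝ) ^ 2) :=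
      ENNReal.tsum_le_tsum hv
    have h2 : Summable (fun j : ℕ => 2 / (j : ℝ) ^ 2) := by
      have := (Real.summable_one_div_nat_pow.2 (show 1 < 2 by norm_num)).mul_left 2
      refine this.congr (fun j => ?_)
      rw [mul_one_div]
    exact ne_top_of_le_ne_top h2.tsum_ofReal_ne_top h1
  filter_upwards [ae_eventually_notMem hsum] with x hx h0 h1
  obtain ⟨J₁, hJ₁⟩ := eventually_atTop.1 hx
  set J := max J₁ 12 with hJ
  refine eventually_atTop.2 ⟨2 ^ 2 ^ J, fun K hK => ?_⟩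
  set L := Nat.log 2 K with hL
  have hL1 : 2 ^ J ≤ L := Nat.le_log_of_pow_le (by norm_num) hK
  set i := Nat.log 2 L with hi
  have hiJ : J ≤ i := Nat.le_log_of_pow_le (by norm_num) hL1
  have h2J : 0 < 2 ^ J := by positivity
  have hL0 : L ≠ 0 := by omega
  have hK0 : K ≠ 0 := by
    have : 0 < 2 ^ 2 ^ J := by positivity
    omega
  have hiL : 2 ^ i ≤ L := Nat.pow_log_le_self 2 hL0
  have hLi : L < 2 ^ (i + 1) := Nat.lt_pow_succ_log_self (by norm_num) L
  have hKL : 2 ^ L ≤ K := Nat.pow_log_le_self 2 hK0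
  have hKL2 : K < 2 ^ (L + 1) := Nat.lt_pow_succ_log_self (by norm_num) K
  have hKQ : K ≤ Q (i + 1) := hKL2.le.trans (Nat.pow_le_pow_right (by norm_num) hLi)
  have hKr : (0 : ℝ) < (K : ℝ) := by exact_mod_cast Nat.pos_of_ne_zero hK0
  have hlog2lo : (1 : ℝ) / 2 < Real.log 2 := by
    have := Real.log_two_gt_d9
    linarith
  have hlog2hi : Real.log 2 < 1 := by
    have := Real.log_two_lt_d9
    linarith
  have hi12 : 12 ≤ i := le_trans (le_max_right _ _) hiJ
  have hi12r : (12 : ℝ) ≤ (i : ℝ) := by exact_mod_cast hi12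
  -- the event does not happen for the index `i + 1`
  have hnot := hJ₁ (i + 1) (by have := le_max_left J₁ 12; omega)
  have hlt : (cntR (Icc 1 (Q (i + 1))) x : ℝ) <
      C * (1 + Real.log (Q (i + 1) : ℝ)) * Real.log ((i + 1 : ℕ) : ℝ) := by
    by_contra hcon
    exact hnot ⟨h0, h1, by omega, not_lt.1 hcon⟩
  have hmono : (cntR (Icc 1 K) x : ℝ) ≤ (cntR (Icc 1 (Q (i + 1))) x : ℝ) := by
    exact_mod_cast cntR_mono (Finset.Icc_subset_Icc le_rfl hKQ) x
  have hlogQ : Real.log (Q (i + 1) : ℝ) ≤ 2 * 2 ^ i := by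
    rw [hQ]
    simp only
    push_cast
    rw [Real.log_pow]
    push_cast
    rw [pow_succ]
    have : (0 : ℝ) < 2 ^ i := by positivity
    nlinarith
  have hlogK : (2 : ℝ) ^ i / 2 ≤ Real.log (K : ℝ) := by
    have h5 : (2 : ℝ) ^ (2 ^ i) ≤ (K : ℝ) := by
      have : 2 ^ 2 ^ i ≤ K := (Nat.pow_le_pow_right (by norm_num) hiL).trans hKL
      exact_mod_cast this
    have h6 := Real.log_le_log (by positivity) h5
    rw [Real.log_pow] at h6
    push_cast at h6
    have : (0 : ℝ) < 2 ^ i := by positivity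
    nlinarith
  have hloglog : ((i : ℝ) - 1) / 2 ≤ Real.log (Real.log (K : ℝ)) := by
    have h5 := Real.log_le_log (by positivity) hlogK
    rw [Real.log_div (by positivity) (by norm_num), Real.log_pow] at h5
    have : ((i : ℝ) - 1) * Real.log 2 ≥ ((i : ℝ) - 1) * (1 / 2) :=
      mul_le_mul_of_nonneg_left hlog2lo.le (by linarith)
    linarith
  have hlll : Real.log ((i + 1 : ℕ) : ℝ) ≤ 2 * Real.log (Real.log (Real.log (K : ℝ))) := by
    have h5 : ((i + 1 : ℕ) : ℝ) ≤ (Real.log (Real.log (K : ℝ))) ^ 2 := by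
      push_cast
      have h6 : ((i : ℝ) - 1) / 2 * (((i : ℝ) - 1) / 2) ≤
          Real.log (Real.log (K : ℝ)) * Real.log (Real.log (K : ℝ)) :=
        mul_le_mul hloglog hloglog (by linarith) (by linarith)
      nlinarith
    have h6 := Real.log_le_log (by positivity) h5
    rw [Real.log_pow] at h6
    push_cast at h6 ⊢
    exact h6
  have hlogi0 : 0 ≤ Real.log ((i + 1 : ℕ) : ℝ) := Real.log_nonneg (by push_cast; linarith)
  have h2i1 : (1 : ℝ) ≤ 2 ^ i := one_le_pow₀ (by norm_num)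
  calc (cntR (Icc 1 K) x : ℝ) ≤
        C * (1 + Real.log (Q (i + 1) : ℝ)) * Real.log ((i + 1 : ℕ) : ℝ) := hmono.trans hlt.le
    _ ≤ C * (4 * 2 ^ i) * Real.log ((i + 1 : ℕ) : ℝ) := by
        apply mul_le_mul_of_nonneg_right _ hlogi0
        apply mul_le_mul_of_nonneg_left _ (by linarith)
        linarith
    _ ≤ C * (8 * Real.log (K : ℝ)) * Real.log ((i + 1 : ℕ) : ℝ) := by
        apply mul_le_mul_of_nonneg_right _ hlogi0
        apply mul_le_mul_of_nonneg_left _ (by linarith)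
        linarith
    _ ≤ C * (8 * Real.log (K : ℝ)) * (2 * Real.log (Real.log (Real.log (K : ℝ)))) := by
        apply mul_le_mul_of_nonneg_left hlll
        have : (0 : ℝ) ≤ Real.log (K : ℝ) := by linarith
        positivity
    _ = 16 * C * (Real.log (K : ℝ) * Real.log (Real.log (Real.log (K : ℝ)))) := by ring

end Pool.Agent.H541.PP
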