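import Pool.Graph.R_pool_sql_team_seeded_2aa45f1a.Q26.PL.N
import Pool.Graph.R_seed8.Y816.PS.F

/-!
# The palindrome formed by mirroring the first digits
-/

set_option autoImplicit false

namespace Pool.Agent.H541.PP

open Finset

/-- For an integer `a` with `N + 1` decimal digits: the palindrome with `2 N + 1` digits whose first
`N + 1` digits are the digits of `a`. -/
def mirror (N a : ℕ) : ℕ := a * 10 ^ N + Nat.ofDigits 10 (Nat.digits 10 (a / 10)).reverse

lemma digits_div (a : ℕ) : Nat.digits 10 (a / 10) = (Nat.digits 10 a).tail := by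
  rcases Nat.eq_zero_or_pos a with h | h
  · subst h; simp
  · rw [Nat.digits_def' (by norm_num) h]
    simp

lemma digits_len {N a : ℕ} (h1 : 10 ^ N ≤ a) (h2 : a < 10 ^ (N + 1)) :
    (Nat.digits 10 a).length = N + 1 := by
  have h3 : (Nat.digits 10 a).length ≤ N + 1 :=
    (Nat.digits_length_le_iff (by norm_num) a).2 h2
  have h4 : N < (Nat.digits 10 a).length := (Nat.lt_digits_length_iff (by norm_num) a).2 h1
  omega

lemma mirror_eq {N a : ℕ} (h1 : 10 ^ N ≤ a) (h2 : a < 10 ^ (N + 1)) :
    Nat.digits 10 (mirror N a) = (Nat.digits 10 a).tail.reverse ++ Nat.digits 10 a := by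
  have hlen := digits_len h1 h2
  have hr : ((Nat.digits 10 a).tail.reverse).length = N := by simp [hlen]
  have e1 : mirror N a = Nat.ofDigits 10 ((Nat.digits 10 a).tail.reverse ++ Nat.digits 10 a) := by
    rw [Nat.ofDigits_append, hr, Nat.ofDigits_digits]
    unfold mirror
    rw [digits_div]
    ring
  rw [e1]
  apply Nat.digits_ofDigits 10 (by norm_num)
  · intro d hd
    rw [List.mem_append, List.mem_reverse] at hd
    rcases hd with hd | hd
    · exact Nat.digits_lt_base (by norm_num) (List.mem_of_mem_tail hd)
    · exact Nat.digits_lt_base (by norm_num) hd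
  · intro hne
    have ha : a ≠ 0 := by
      have : 0 < 10 ^ N := by positivity
      omega
    have hne' : Nat.digits 10 a ≠ [] := by
      rw [Ne, Nat.digits_eq_nil_iff_eq_zero]
      exact ha
    rw [List.getLast_append_of_ne_nil _ hne']
    exact Nat.getLast_digit_ne_zero 10 ha

lemma mirror_rev {N a : ℕ} (h1 : 10 ^ N ≤ a) (h2 : a < 10 ^ (N + 1)) :
    (Nat.digits 10 (mirror N a)).reverse = Nat.digits 10 (mirror N a) := by
  rw [mirror_eq h1 h2]
  have hlen := digits_len h1 h2
  rcases h : Nat.digits 10 a with _ | ⟨x, t⟩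
  · rfl
  · simp

lemma rev_lt {N a : ℕ} (h2 : a < 10 ^ (N + 1)) :
    Nat.ofDigits 10 (Nat.digits 10 (a / 10)).reverse < 10 ^ N := by
  have h3 : (Nat.digits 10 (a / 10)).length ≤ N := by
    rw [Nat.digits_length_le_iff (by norm_num)]
    rw [pow_succ] at h2
    exact (Nat.div_lt_iff_lt_mul (by norm_num)).2 h2
  have h4 : Nat.ofDigits 10 (Nat.digits 10 (a / 10)).reverse <
      10 ^ ((Nat.digits 10 (a / 10)).reverse).length := by
    apply Nat.ofDigits_lt_base_pow_length (by norm_num)
    intro d hd
    rw [List.mem_reverse] at hd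
    exact Nat.digits_lt_base (by norm_num) hd
  rw [List.length_reverse] at h4
  exact h4.trans_le (Nat.pow_le_pow_right (by norm_num) h3)

lemma mirror_div {N a : ℕ} (h2 : a < 10 ^ (N + 1)) : mirror N a / 10 ^ N = a := by
  unfold mirror
  rw [Nat.add_comm, Nat.add_mul_div_right _ _ (by positivity), Nat.div_eq_of_lt (rev_lt h2),
    Nat.zero_add]

/-- a palindrome with `2 N + 1` digits is recovered from its first half -/
lemma mirror_of_pal {N n : ℕ} (h1 : 10 ^ (2 * N) ≤ n) (h2 : n < 10 ^ (2 * N + 1))
    (hr : (Nat.digits 10 n).reverse = Nat.digits 10 n) : mirror N (n / 10 ^ N) = n := by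
  set l := Nat.digits 10 n with hl
  have hlen : l.length = 2 * N + 1 := by
    have := digits_len h1 h2
    exact this
  have hlt : Nat.ofDigits 10 (l.take N) < 10 ^ N := by
    have h4 : Nat.ofDigits 10 (l.take N) < 10 ^ (l.take N).length := by
      apply Nat.ofDigits_lt_base_pow_length (by norm_num)
      intro d hd
      exact Nat.digits_lt_base (by norm_num) (List.mem_of_mem_take hd)
    have h5 : (l.take N).length = N := by
      rw [List.length_take, hlen]
      omega
    rwa [h5] at h4
  have hsplit : n = Nat.ofDigits 10 (l.take N) + 10 ^ N * Nat.ofDigits 10 (l.drop N) := by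
    conv_lhs => rw [← Nat.ofDigits_digits 10 n, ← hl, ← List.take_append_drop N l]
    rw [Nat.ofDigits_append, List.length_take, hlen]
    congr 3
    omega
  have hdiv : n / 10 ^ N = Nat.ofDigits 10 (l.drop N) := by
    conv_lhs => rw [hsplit]
    rw [Nat.add_mul_div_left _ _ (by positivity), Nat.div_eq_of_lt hlt, Nat.zero_add]
  have hne : l.drop N ≠ [] := by
    intro h
    have := congrArg List.length h
    rw [List.length_drop, hlen] at this
    simp at this
    omega
  have hd : Nat.digits 10 (n / 10 ^ N) = l.drop N := by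
    rw [hdiv]
    apply Nat.digits_ofDigits 10 (by norm_num)
    · intro d hd
      exact Nat.digits_lt_base (by norm_num) (List.mem_of_mem_drop hd)
    · intro h
      rw [List.getLast_drop]
      apply Nat.getLast_digit_ne_zero 10
      have : 0 < 10 ^ (2 * N) := by positivity
      omega
  have hd2 : Nat.digits 10 (n / 10 ^ N / 10) = l.drop (N + 1) := by
    rw [digits_div, hd, List.tail_drop]
  have hrev : (l.drop (N + 1)).reverse = l.take N := by
    have h6 : (l.drop (N + 1)).reverse = l.reverse.take (l.length - (N + 1)) := by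
      rw [List.reverse_drop]
    rw [h6, hr, hlen]
    congr 1
    omega
  unfold mirror
  rw [hd2, hrev, hdiv]
  conv_rhs => rw [hsplit]
  ring

end Pool.Agent.H541.PP
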