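import Pool.Agent.H541.PP.Chain2

/-!
# Exponential moments of the number of rough mirror palindromes
-/

set_option autoImplicit false

namespace Pool.Agent.H541.PP

open Finset Filter

/-- the mirror palindrome of `a` has no prime factor `p` with `p ^ 12 ≤ 10 ^ N` -/
def RG (N a : ℕ) : Prop := Rough 12 N (mirror N a)

open Classical in
/-- the number of `N` with `M < N ≤ K` for which the mirror palindrome of the prefix with `N + 1`
digits of `b` (which has `K + 1` digits) is rough -/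
noncomputable def TT (K M b : ℕ) : ℕ :=
  ((Ioc M K).filter (fun N => RG N (b / 10 ^ (K - N)))).card

open Classical in
lemma pow_TT (s : ℝ) (K b : ℕ) : ∀ t M : ℕ, M + t = K → (1 + s) ^ TT K M b =
    1 + s * ∑ N ∈ Ioc M K, (if RG N (b / 10 ^ (K - N)) then (1 + s) ^ TT K N b else 0) := by
  intro t
  induction t with
  | zero =>
    intro M hM
    have : M = K := by omega
    subst this
    simp [TT]
  | succ t ih =>
    intro M hM
    have hins : Ioc M K = insert (M + 1) (Ioc (M + 1) K) := by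
      ext N
      simp only [mem_insert, mem_Ioc]
      omega
    have hnot : M + 1 ∉ Ioc (M + 1) K := by simp
    have h1 := ih (M + 1) (by omega)
    by_cases hP : RG (M + 1) (b / 10 ^ (K - (M + 1)))
    · have h2 : TT K M b = TT K (M + 1) b + 1 := by
        unfold TT
        rw [hins, filter_insert, if_pos hP, card_insert_of_notMem]
        intro hmem
        exact hnot (mem_of_mem_filter _ hmem)
      rw [hins, sum_insert hnot, if_pos hP, h2, pow_succ]
      linear_combination h1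
    · have h2 : TT K M b = TT K (M + 1) b := by
        unfold TT
        rw [hins, filter_insert, if_neg hP]
      rw [hins, sum_insert hnot, if_neg hP, h2, zero_add]
      exact h1

open Classical in
lemma fibw {q : ℕ} (hq : 0 < q) (u v : ℕ) (P : ℕ → Prop) (g : ℕ → ℝ) :
    ∑ a ∈ Ico (u * q) (v * q), (if P (a / q) then g a else 0) =
      ∑ c ∈ (Ico u v).filter P, ∑ a ∈ Ico (c * q) ((c + 1) * q), g a := by
  rw [← Finset.sum_filter]
  rw [← Finset.sum_fiberwise_of_maps_to (g := fun a => a / q) (t := (Ico u v).filter P)]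
  · apply Finset.sum_congr rfl
    intro c hc
    apply Finset.sum_congr _ (fun _ _ => rfl)
    ext a
    simp only [mem_filter, mem_Ico] at hc ⊢
    constructor
    · rintro ⟨⟨⟨h1, h2⟩, h3⟩, h5⟩
      refine ⟨?_, ?_⟩
      · rw [← h5]; exact Nat.div_mul_le_self a q
      · rw [← h5]
        exact (Nat.div_lt_iff_lt_mul hq).1 (Nat.lt_succ_self _)
    · rintro ⟨h1, h2⟩
      have h5 : a / q = c := Nat.div_eq_of_lt_le h1 h2
      refine ⟨⟨⟨?_, ?_⟩, ?_⟩, h5⟩
      · exact (Nat.mul_le_mul_right q hc.1.1).trans h1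
      · exact h2.trans_le (Nat.mul_le_mul_right q hc.1.2)
      · rw [h5]; exact hc.2
  · intro a ha
    simp only [mem_filter, mem_Ico] at ha ⊢
    refine ⟨⟨?_, ?_⟩, ha.2⟩
    · exact (Nat.le_div_iff_mul_le hq).2 ha.1.1
    · exact (Nat.div_lt_iff_lt_mul hq).2 ha.1.2

open Classical in
/-- in every cylinder the density of rough prefixes `l` levels later is at most `C / l` -/
theorem upR2 : ∃ C : ℝ, 1 ≤ C ∧ ∀ M N c : ℕ, M < N → 10 ^ M ≤ c → c < 10 ^ (M + 1) →
      (((Ico (c * 10 ^ (N - M)) ((c + 1) * 10 ^ (N - M))).filter (RG N)).card : ℝ) ≤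
        C / ((N : ℝ) - (M : ℝ)) * 10 ^ (N - M) := by
  obtain ⟨C, hC, L₀, hL₀, hup⟩ := upR
  refine ⟨max ((L₀ : ℝ) + 1) C, ?_, ?_⟩
  · refine le_trans ?_ (le_max_left _ _)
    have : (0 : ℝ) ≤ (L₀ : ℝ) := by positivity
    linarith
  intro M N c hMN h1 h2
  obtain ⟨L, rfl⟩ : ∃ L, N = M + L + 1 := ⟨N - M - 1, by omega⟩
  have e0 : M + L + 1 - M = L + 1 := by omega
  have e5 : (((M + L + 1 : ℕ) : ℝ) - (M : ℝ)) = (L : ℝ) + 1 := by push_cast; ring
  rw [e0, e5]
  have hLpos : (0 : ℝ) < (L : ℝ) + 1 := by positivity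
  by_cases hL : L₀ ≤ L
  · have hL1 : 1 ≤ L := by omega
    have hLr : (1 : ℝ) ≤ (L : ℝ) := by exact_mod_cast hL1
    refine (hup L M c hL h1 h2).trans ?_
    rw [div_mul_eq_mul_div, div_le_div_iff₀ (by positivity) (by positivity), pow_succ]
    have hm : C ≤ max ((L₀ : ℝ) + 1) C := le_max_right _ _
    have h10 : (0 : ℝ) < 10 ^ L := by positivity
    calc C * 10 ^ L * ((L : ℝ) + 1) ≤ C * 10 ^ L * (10 * (L : ℝ)) := by
          apply mul_le_mul_of_nonneg_left _ (by positivity)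
          linarith
      _ = C * (10 ^ L * 10) * (L : ℝ) := by ring
      _ ≤ max ((L₀ : ℝ) + 1) C * (10 ^ L * 10) * (L : ℝ) := by
          apply mul_le_mul_of_nonneg_right _ (by positivity)
          apply mul_le_mul_of_nonneg_right hm (by positivity)
  · push Not at hL
    have hc1 : (((Ico (c * 10 ^ (L + 1)) ((c + 1) * 10 ^ (L + 1))).filter
        (RG (M + L + 1))).card : ℝ) ≤ 10 ^ (L + 1) := by
      have := Finset.card_filter_le (Ico (c * 10 ^ (L + 1)) ((c + 1) * 10 ^ (L + 1)))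
        (RG (M + L + 1))
      have hcard : (Ico (c * 10 ^ (L + 1)) ((c + 1) * 10 ^ (L + 1))).card = 10 ^ (L + 1) := by
        rw [Nat.card_Ico, Nat.add_mul, Nat.one_mul, Nat.add_sub_cancel_left]
      rw [hcard] at this
      exact_mod_cast this
    refine hc1.trans ?_
    have h3 : (1 : ℝ) ≤ max ((L₀ : ℝ) + 1) C / ((L : ℝ) + 1) := by
      rw [le_div_iff₀ hLpos, one_mul]
      refine le_trans ?_ (le_max_left _ _)
      have : ((L : ℕ) : ℝ) ≤ (L₀ : ℝ) := by exact_mod_cast hL.le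
      linarith
    calc (10 : ℝ) ^ (L + 1) = 1 * 10 ^ (L + 1) := by ring
      _ ≤ _ := mul_le_mul_of_nonneg_right h3 (by positivity)

open Classical in
/-- exponential moments in every cylinder -/
theorem expo {C : ℝ} (hC : 1 ≤ C)
    (hup : ∀ M N c : ℕ, M < N → 10 ^ M ≤ c → c < 10 ^ (M + 1) →
      (((Ico (c * 10 ^ (N - M)) ((c + 1) * 10 ^ (N - M))).filter (RG N)).card : ℝ) ≤
        C / ((N : ℝ) - (M : ℝ)) * 10 ^ (N - M))
    {K : ℕ} {s : ℝ} (hs : 0 ≤ s) (hsD : 2 * s * (C * (1 + Real.log (K : ℝ))) ≤ 1) :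
    ∀ t M : ℕ, M + t = K → ∀ c : ℕ, 10 ^ M ≤ c → c < 10 ^ (M + 1) →
      ∑ b ∈ Ico (c * 10 ^ (K - M)) ((c + 1) * 10 ^ (K - M)), (1 + s) ^ TT K M b ≤
        2 * 10 ^ (K - M) := by
  intro t
  induction t using Nat.strong_induction_on with
  | _ t ih =>
  intro M hM c hc1 hc2
  have hcard : ((Ico (c * 10 ^ (K - M)) ((c + 1) * 10 ^ (K - M))).card : ℝ) = 10 ^ (K - M) := by
    rw [Nat.card_Ico, Nat.add_mul, Nat.one_mul, Nat.add_sub_cancel_left]
    push_cast
    rfl
  have hN : ∀ N ∈ Ioc M K,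
      ∑ b ∈ Ico (c * 10 ^ (K - M)) ((c + 1) * 10 ^ (K - M)),
        (if RG N (b / 10 ^ (K - N)) then (1 + s) ^ TT K N b else 0) ≤
      2 * 10 ^ (K - M) * (C * (1 / ((N : ℝ) - (M : ℝ)))) := by
    intro N hNI
    rw [mem_Ioc] at hNI
    have hpow : 10 ^ (K - M) = 10 ^ (N - M) * 10 ^ (K - N) := by
      rw [← pow_add]; congr 1; omega
    have hf := fibw (q := 10 ^ (K - N)) (by positivity) (c * 10 ^ (N - M))
      ((c + 1) * 10 ^ (N - M)) (RG N) (fun b => (1 + s) ^ TT K N b)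
    rw [mul_assoc, mul_assoc, ← hpow] at hf
    rw [hf]
    calc ∑ c' ∈ (Ico (c * 10 ^ (N - M)) ((c + 1) * 10 ^ (N - M))).filter (RG N),
          ∑ b ∈ Ico (c' * 10 ^ (K - N)) ((c' + 1) * 10 ^ (K - N)), (1 + s) ^ TT K N b
        ≤ ∑ c' ∈ (Ico (c * 10 ^ (N - M)) ((c + 1) * 10 ^ (N - M))).filter (RG N),
          (2 * 10 ^ (K - N) : ℝ) := by
          apply Finset.sum_le_sum
          intro c' hc'
          rw [mem_filter, mem_Ico] at hc'
          apply ih (K - N) (by omega) N (by omega) c'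
          · calc 10 ^ N = 10 ^ M * 10 ^ (N - M) := by rw [← pow_add]; congr 1; omega
              _ ≤ c * 10 ^ (N - M) := Nat.mul_le_mul_right _ hc1
              _ ≤ c' := hc'.1.1
          · calc c' < (c + 1) * 10 ^ (N - M) := hc'.1.2
              _ ≤ 10 ^ (M + 1) * 10 ^ (N - M) := Nat.mul_le_mul_right _ hc2
              _ = 10 ^ (N + 1) := by rw [← pow_add]; congr 1; omega
      _ = (((Ico (c * 10 ^ (N - M)) ((c + 1) * 10 ^ (N - M))).filter (RG N)).card : ℝ) *
          (2 * 10 ^ (K - N)) := by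
          rw [Finset.sum_const, nsmul_eq_mul]
      _ ≤ (C / ((N : ℝ) - (M : ℝ)) * 10 ^ (N - M)) * (2 * 10 ^ (K - N)) :=
          mul_le_mul_of_nonneg_right (hup M N c hNI.1 hc1 hc2) (by positivity)
      _ = 2 * 10 ^ (K - M) * (C * (1 / ((N : ℝ) - (M : ℝ)))) := by
          have hpow' : (10 : ℝ) ^ (K - M) = 10 ^ (N - M) * 10 ^ (K - N) := by exact_mod_cast hpow
          rw [hpow']
          ring
  have hdiff : ∑ N ∈ Ioc M K, 1 / ((N : ℝ) - (M : ℝ)) ≤ 1 + Real.log (K : ℝ) := by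
    have h := sum_diff (s := Ioc M K) (K := K) (M := M) (fun N hN => (mem_Ioc.1 hN).2)
    refine le_trans (le_of_eq ?_) h
    apply Finset.sum_congr _ (fun _ _ => rfl)
    ext N
    simp only [mem_filter, mem_Ioc]
    tauto
  calc ∑ b ∈ Ico (c * 10 ^ (K - M)) ((c + 1) * 10 ^ (K - M)), (1 + s) ^ TT K M b
      = ∑ b ∈ Ico (c * 10 ^ (K - M)) ((c + 1) * 10 ^ (K - M)),
        (1 + s * ∑ N ∈ Ioc M K, (if RG N (b / 10 ^ (K - N)) then (1 + s) ^ TT K N b else 0)) := by
        apply Finset.sum_congr rfl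
        intro b _
        exact pow_TT s K b t M hM
    _ = 10 ^ (K - M) + s * ∑ N ∈ Ioc M K,
        ∑ b ∈ Ico (c * 10 ^ (K - M)) ((c + 1) * 10 ^ (K - M)),
          (if RG N (b / 10 ^ (K - N)) then (1 + s) ^ TT K N b else 0) := by
        rw [Finset.sum_add_distrib, Finset.sum_const, nsmul_eq_mul, mul_one, hcard,
          ← Finset.mul_sum, Finset.sum_comm]
    _ ≤ 10 ^ (K - M) + s * ∑ N ∈ Ioc M K, 2 * 10 ^ (K - M) * (C * (1 / ((N : ℝ) - (M : ℝ)))) := by
        have := mul_le_mul_of_nonneg_left (Finset.sum_le_sum hN) hs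
        linarith
    _ = 10 ^ (K - M) * (1 + 2 * s * (C * ∑ N ∈ Ioc M K, 1 / ((N : ℝ) - (M : ℝ)))) := by
        rw [← Finset.mul_sum, ← Finset.mul_sum]
        ring
    _ ≤ 10 ^ (K - M) * 2 := by
        apply mul_le_mul_of_nonneg_left _ (by positivity)
        have h1 : 2 * s * (C * ∑ N ∈ Ioc M K, 1 / ((N : ℝ) - (M : ℝ))) ≤
            2 * s * (C * (1 + Real.log (K : ℝ))) := by
          apply mul_le_mul_of_nonneg_left _ (by positivity)
          apply mul_le_mul_of_nonneg_left hdiff (by linarith)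
        linarith
    _ = 2 * 10 ^ (K - M) := by ring

end Pool.Agent.H541.PP
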