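import Pool.Agent.H541.PP.Up

/-!
# Exponential tail
-/

set_option autoImplicit false

namespace Pool.Agent.H541.PP

open Finset Filter

lemma exp_half_le {s : ℝ} (h0 : 0 ≤ s) (h1 : s ≤ 1) : Real.exp (s / 2) ≤ 1 + s := by
  have h2 := Real.add_one_le_exp (-(s / 2))
  have h3 : 0 < 1 - s / 2 := by linarith
  have h4 : Real.exp (s / 2) * Real.exp (-(s / 2)) = 1 := by
    rw [← Real.exp_add]; simp
  have h5 : Real.exp (s / 2) * (1 - s / 2) ≤ 1 := by
    rw [← h4]
    apply mul_le_mul_of_nonneg_left _ (Real.exp_pos _).le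
    linarith
  have h6 : 1 ≤ (1 + s) * (1 - s / 2) := by nlinarith
  exact le_of_mul_le_mul_right (h5.trans h6) h3

open Classical in
/-- summing over the nine leading digits -/
lemma num9 {K : ℕ} {R : ℝ} (Q : ℕ → Prop) (hR : 0 ≤ R)
    (h : ∀ c : ℕ, 1 ≤ c → c < 10 →
      (((Ico (c * 10 ^ K) ((c + 1) * 10 ^ K)).filter Q).card : ℝ) ≤ R) :
    num (K + 1) (fun b => 10 ^ K ≤ b ∧ Q b) ≤ 10 * R := by
  obtain ⟨P, hP⟩ : ∃ P : ℕ → Prop, ∀ c, P c := ⟨fun _ => True, fun _ => trivial⟩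
  have hf := fib (q := 10 ^ K) (by positivity) 1 10 P Q
  have hsub : ((range (10 ^ (K + 1))).filter (fun b => 10 ^ K ≤ b ∧ Q b)).card ≤
      ((Ico (1 * 10 ^ K) (10 * 10 ^ K)).filter (fun a => P (a / 10 ^ K) ∧ Q a)).card := by
    apply Finset.card_le_card
    intro b hb
    rw [mem_filter, mem_range] at hb
    rw [mem_filter, mem_Ico]
    refine ⟨⟨by rw [one_mul]; exact hb.2.1, by rw [← pow_succ']; exact hb.1⟩, hP _, hb.2.2⟩
  rw [hf] at hsub
  have hsub'' : num (K + 1) (fun b => 10 ^ K ≤ b ∧ Q b) ≤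
      ∑ c ∈ (Ico 1 10).filter P, (((Ico (c * 10 ^ K) ((c + 1) * 10 ^ K)).filter Q).card : ℝ) := by
    unfold num
    refine le_trans (le_of_eq ?_) (Nat.cast_le.2 hsub |>.trans (le_of_eq (by push_cast; rfl)))
    congr 2
    ext b
    simp only [mem_filter]
  refine hsub''.trans ?_
  calc ∑ c ∈ (Ico 1 10).filter P, (((Ico (c * 10 ^ K) ((c + 1) * 10 ^ K)).filter Q).card : ℝ)
      ≤ ∑ c ∈ (Ico 1 10).filter P, R := by
        apply Finset.sum_le_sum
        intro c hc'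
        rw [mem_filter, mem_Ico] at hc'
        exact h c hc'.1.1 hc'.1.2
    _ ≤ 10 * R := by
        rw [Finset.sum_const, nsmul_eq_mul]
        apply mul_le_mul_of_nonneg_right _ hR
        have : ((Ico 1 10).filter P).card ≤ 10 := by
          refine (Finset.card_filter_le _ _).trans ?_
          simp
        exact_mod_cast this

/-- exponential tail of the number of rough levels -/
theorem tail : ∃ C : ℝ, 1 ≤ C ∧ ∀ K j : ℕ, 1 ≤ K → 1 ≤ j →
    num (K + 1) (fun b => 10 ^ K ≤ b ∧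
      C * (1 + Real.log (K : ℝ)) * Real.log (j : ℝ) ≤ (TT K 0 b : ℝ)) ≤
        2 / (j : ℝ) ^ 2 * 10 ^ (K + 1) := by
  classical
  obtain ⟨C, hC, hup⟩ := upR2
  refine ⟨8 * C, by linarith, ?_⟩
  intro K j hK hj
  have hlogK : 0 ≤ Real.log (K : ℝ) := Real.log_nonneg (by exact_mod_cast hK)
  have hlogj : 0 ≤ Real.log (j : ℝ) := Real.log_nonneg (by exact_mod_cast hj)
  set D : ℝ := C * (1 + Real.log (K : ℝ)) with hD
  have hD1 : 1 ≤ D := by
    rw [hD]
    nlinarith
  set s : ℝ := 1 / (2 * D) with hs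
  have hs0 : 0 < s := by positivity
  have hs1 : s ≤ 1 := by
    rw [hs, div_le_one (by positivity)]
    linarith
  have hsD : 2 * s * D ≤ 1 := by
    rw [hs]
    field_simp
    exact le_rfl
  have hexp := expo hC hup (K := K) hs0.le hsD K 0 (by omega)
  rw [Nat.sub_zero] at hexp
  have hj0 : (0 : ℝ) < (j : ℝ) ^ 2 := by positivity
  have hc : ∀ c ∈ Ico 1 10, (((Ico (c * 10 ^ K) ((c + 1) * 10 ^ K)).filter
      (fun b => 8 * C * (1 + Real.log (K : ℝ)) * Real.log (j : ℝ) ≤ (TT K 0 b : ℝ))).card : ℝ) ≤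
      2 / (j : ℝ) ^ 2 * 10 ^ K := by
    intro c hc
    rw [mem_Ico] at hc
    have h1 := hexp c (by simpa using hc.1) (by simpa using hc.2)
    have h2 : (((Ico (c * 10 ^ K) ((c + 1) * 10 ^ K)).filter
        (fun b => 8 * C * (1 + Real.log (K : ℝ)) * Real.log (j : ℝ) ≤
          (TT K 0 b : ℝ))).card : ℝ) * (j : ℝ) ^ 2 ≤
        ∑ b ∈ Ico (c * 10 ^ K) ((c + 1) * 10 ^ K), (1 + s) ^ TT K 0 b := by
      rw [← nsmul_eq_mul, ← Finset.sum_const]
      refine le_trans ?_ (Finset.sum_le_sum_of_subset_of_nonneg (Finset.filter_subset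
        (fun b => 8 * C * (1 + Real.log (K : ℝ)) * Real.log (j : ℝ) ≤ (TT K 0 b : ℝ)) _)
        (fun b _ _ => by positivity))
      apply Finset.sum_le_sum
      intro b hb
      rw [mem_filter] at hb
      have h3 : Real.exp (s / 2) ^ TT K 0 b ≤ (1 + s) ^ TT K 0 b :=
        pow_le_pow_left₀ (Real.exp_pos _).le (exp_half_le hs0.le hs1) _
      refine le_trans ?_ h3
      rw [← Real.exp_nat_mul]
      have h4 : (j : ℝ) ^ 2 = Real.exp (2 * Real.log (j : ℝ)) := by
        rw [mul_comm, Real.exp_mul, Real.exp_log (by exact_mod_cast hj)]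
        norm_num
      rw [h4]
      apply Real.exp_le_exp.2
      have h5 : 8 * C * (1 + Real.log (K : ℝ)) * Real.log (j : ℝ) = 8 * D * Real.log (j : ℝ) := by
        rw [hD]; ring
      have h6 := hb.2
      rw [h5] at h6
      calc 2 * Real.log (j : ℝ) = (8 * D * Real.log (j : ℝ)) * (s / 2) := by
            rw [hs]; field_simp; ring
        _ ≤ (TT K 0 b : ℝ) * (s / 2) := mul_le_mul_of_nonneg_right h6 (by positivity)
    rw [div_mul_eq_mul_div, le_div_iff₀ hj0]
    exact h2.trans h1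
  refine (num9 (K := K) (R := 2 / (j : ℝ) ^ 2 * 10 ^ K)
    (fun b => 8 * C * (1 + Real.log (K : ℝ)) * Real.log (j : ℝ) ≤ (TT K 0 b : ℝ))
    (by positivity) ?_).trans (le_of_eq (by rw [pow_succ]; ring))
  intro c h1 h2
  exact hc c (mem_Ico.2 ⟨h1, h2⟩)

/-- the density of prefixes with rough mirror palindrome -/
theorem dens : ∃ C : ℝ, 0 < C ∧ ∀ N : ℕ, 1 ≤ N →
    num (N + 1) (fun b => 10 ^ N ≤ b ∧ RG N b) ≤ C / (N : ℝ) * 10 ^ (N + 1) := by
  classical
  obtain ⟨C, hC, hup⟩ := upR2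
  refine ⟨C, by linarith, ?_⟩
  intro N hN
  have hNr : (0 : ℝ) < (N : ℝ) := by exact_mod_cast hN
  refine (num9 (K := N) (R := C / (N : ℝ) * 10 ^ N) (RG N) (by positivity) ?_).trans
    (le_of_eq (by rw [pow_succ]; ring))
  intro c h1 h2
  have := hup 0 N c (by omega) (by simpa using h1) (by simpa using h2)
  simpa using this

end Pool.Agent.H541.PP
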